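import Mathlib
import Pool.Agent.Lead.EvDefs

/-!
The Rivest-Vuillemin counting argument on a free set of prime power size.
-/

set_option autoImplicit false

namespace Pool.Agent.Helper82.WE

open Pool.Agent.Lead.Ev Finset

variable {V : Type*} [DecidableEq V]

/-- indicator input of a finite set -/
def ind (F : Finset V) : V → Bool := fun v => decide (v ∈ F)

lemma ind_apply (F : Finset V) (v : V) : ind F v = true ↔ v ∈ F := by simp [ind]

/-- signed count of a decision tree of small depth vanishes -/
theorem signed_sum_zero (t : DTree V) : ∀ (A O : Finset V), Disjoint A O → t.depth < O.card →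
    ∑ S ∈ O.powerset, (-1 : ℤ) ^ S.card * (if t.eval (ind (A ∪ S)) = true then 1 else 0) = 0 := by
  induction t with
  | leaf b =>
    intro A O _ h
    have e : ∀ S ∈ O.powerset, (-1 : ℤ) ^ S.card *
        (if (DTree.leaf b).eval (ind (A ∪ S)) = true then 1 else 0) =
        (-1) ^ S.card * (if b = true then 1 else 0) := fun S _ => rfl
    rw [Finset.sum_congr rfl e, ← Finset.sum_mul, Finset.sum_powerset_neg_one_pow_card_of_nonempty
      (Finset.card_pos.1 (by simpa [DTree.depth] using h)), zero_mul]
  | node i t0 t1 ih0 ih1 =>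
    intro A O hd h
    simp only [DTree.depth] at h
    by_cases hi : i ∈ O
    · obtain ⟨O', hO', rfl⟩ : ∃ O', i ∉ O' ∧ O = insert i O' :=
        ⟨O.erase i, Finset.notMem_erase _ _, (Finset.insert_erase hi).symm⟩
      have hiA : i ∉ A := fun hA => (Finset.disjoint_left.1 hd hA) hi
      rw [Finset.card_insert_of_notMem hO'] at h
      rw [Finset.sum_powerset_insert hO']
      have e0 : ∑ S ∈ O'.powerset, (-1 : ℤ) ^ S.card *
          (if (DTree.node i t0 t1).eval (ind (A ∪ S)) = true then 1 else 0) = 0 := by
        refine Eq.trans (Finset.sum_congr rfl ?_) (ih0 A O' (Finset.disjoint_of_subset_right (Finset.subset_insert _ _) hd)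
          (by omega))
        intro S hS
        have hiS : i ∉ S := fun hh => hO' (Finset.mem_powerset.1 hS hh)
        have : ind (A ∪ S) i = false := by
          simp [ind, hiA, hiS]
        simp only [DTree.eval, this, Bool.false_eq_true, if_false]
      have e1 : ∑ S ∈ O'.powerset, (-1 : ℤ) ^ (insert i S).card *
          (if (DTree.node i t0 t1).eval (ind (A ∪ insert i S)) = true then 1 else 0) = 0 := by
        have hdis : Disjoint (insert i A) O' := by
          rw [Finset.disjoint_insert_left]
          exact ⟨hO', Finset.disjoint_of_subset_right (Finset.subset_insert _ _) hd⟩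
        have h2 := ih1 (insert i A) O' hdis (by omega)
        have h3 : ∑ S ∈ O'.powerset, (-1 : ℤ) ^ (insert i S).card *
            (if (DTree.node i t0 t1).eval (ind (A ∪ insert i S)) = true then 1 else 0) =
            ∑ S ∈ O'.powerset, (-1) * ((-1 : ℤ) ^ S.card *
            (if t1.eval (ind (insert i A ∪ S)) = true then 1 else 0)) := by
          apply Finset.sum_congr rfl
          intro S hS
          have hiS : i ∉ S := fun hh => hO' (Finset.mem_powerset.1 hS hh)
          have hu : A ∪ insert i S = insert i A ∪ S := by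
            rw [Finset.union_insert, Finset.insert_union]
          have : ind (insert i A ∪ S) i = true := by
            simp [ind]
          rw [Finset.card_insert_of_notMem hiS, pow_succ, hu]
          simp only [DTree.eval, this, if_true]
          ring
        rw [h3, ← Finset.mul_sum, h2, mul_zero]
      rw [e0, e1, add_zero]
    · by_cases hA : i ∈ A
      · refine Eq.trans (Finset.sum_congr rfl ?_) (ih1 A O hd (by omega))
        intro S hS
        have : ind (A ∪ S) i = true := by simp [ind, hA]
        simp only [DTree.eval, this, if_true]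
      · refine Eq.trans (Finset.sum_congr rfl ?_) (ih0 A O hd (by omega))
        intro S hS
        have hiS : i ∉ S := fun hh => hi (Finset.mem_powerset.1 hS hh)
        have : ind (A ∪ S) i = false := by simp [ind, hA, hiS]
        simp only [DTree.eval, this, Bool.false_eq_true, if_false]

/-- the number of subsets of `O` of intermediate size in an invariant family is divisible by `p` -/
theorem dvd_card_of_trans {p a : ℕ} (hp : p.Prime) (O : Finset V) (hO : O.card = p ^ a)
    (X : Finset V → Prop) [DecidablePred X] (j : ℕ) (hj0 : 0 < j) (hj : j < O.card)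
    (htr : ∀ x ∈ O, ∀ y ∈ O, ∃ g : Equiv.Perm V, g x = y ∧ ∀ S ⊆ O,
      S.map g.toEmbedding ⊆ O ∧ (X S → X (S.map g.toEmbedding))) :
    p ∣ ((O.powersetCard j).filter X).card := by
  set Y := (O.powersetCard j).filter X with hY
  -- the number of members containing a point
  have hle : ∀ x ∈ O, ∀ y ∈ O, (Y.filter (fun S => x ∈ S)).card ≤
      (Y.filter (fun S => y ∈ S)).card := by
    intro x hx y hy
    obtain ⟨g, hg, hgS⟩ := htr x hx y hy
    apply Finset.card_le_card_of_injOn (fun S => S.map g.toEmbedding)
    · intro S hS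
      rw [Finset.mem_coe, Finset.mem_filter, hY, Finset.mem_filter, Finset.mem_powersetCard] at hS
      rw [Finset.mem_coe, Finset.mem_filter, hY, Finset.mem_filter, Finset.mem_powersetCard]
      obtain ⟨⟨⟨h1, h2⟩, h3⟩, h4⟩ := hS
      refine ⟨⟨⟨(hgS S h1).1, ?_⟩, (hgS S h1).2 h3⟩, ?_⟩
      · rw [Finset.card_map]; exact h2
      · rw [Finset.mem_map]
        exact ⟨x, h4, hg⟩
    · intro S _ T _ h
      exact Finset.map_injective _ h
  have heq : ∀ x ∈ O, ∀ y ∈ O, (Y.filter (fun S => x ∈ S)).card =
      (Y.filter (fun S => y ∈ S)).card := fun x hx y hy =>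
    le_antisymm (hle x hx y hy) (hle y hy x hx)
  have hOne : O.Nonempty := Finset.card_pos.1 (by omega)
  obtain ⟨x0, hx0⟩ := hOne
  have hsum : j * Y.card = O.card * (Y.filter (fun S => x0 ∈ S)).card := by
    have h1 : ∑ S ∈ Y, S.card = j * Y.card := by
      rw [Finset.sum_const_nat (m := j)]
      · ring
      · intro S hS
        rw [hY, Finset.mem_filter, Finset.mem_powersetCard] at hS
        exact hS.1.2
    have h2 : ∑ S ∈ Y, S.card = ∑ x ∈ O, (Y.filter (fun S => x ∈ S)).card := by
      have h3 : ∀ S ∈ Y, S.card = ∑ x ∈ O, if x ∈ S then 1 else 0 := by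
        intro S hS
        rw [hY, Finset.mem_filter, Finset.mem_powersetCard] at hS
        rw [← Finset.card_filter]
        congr 1
        ext x
        rw [Finset.mem_filter]
        exact ⟨fun h => ⟨hS.1.1 h, h⟩, fun h => h.2⟩
      rw [Finset.sum_congr rfl h3, Finset.sum_comm]
      apply Finset.sum_congr rfl
      intro x _
      rw [Finset.card_filter]
    rw [← h1, h2, Finset.sum_congr rfl (fun x hx => heq x hx x0 hx0), Finset.sum_const, smul_eq_mul]
  by_contra hnd
  have hcop : Nat.Coprime (p ^ a) Y.card := Nat.Coprime.pow_left a ((Nat.Prime.coprime_iff_not_dvd hp).2 hnd)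
  have hdvd : p ^ a ∣ j * Y.card := by
    rw [hsum, hO]; exact Dvd.intro _ rfl
  have := hcop.dvd_of_dvd_mul_right hdvd
  have := Nat.le_of_dvd hj0 this
  omega

/-- Rivest-Vuillemin: a function that flips on a transitive free set of prime power size needs
depth at least the size of the free set. -/
theorem rv {p a : ℕ} (hp : p.Prime) (A O : Finset V) (hd : Disjoint A O) (hO : O.card = p ^ a)
    (f : (V → Bool) → Bool) (h0 : f (ind A) = false) (h1 : f (ind (A ∪ O)) = true)
    (htr : ∀ x ∈ O, ∀ y ∈ O, ∃ g : Equiv.Perm V, g x = y ∧ ∀ S ⊆ O,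
      S.map g.toEmbedding ⊆ O ∧ (f (ind (A ∪ S)) = true → f (ind (A ∪ S.map g.toEmbedding)) = true))
    (t : DTree V) (ht : ∀ x, t.eval x = f x) : O.card ≤ t.depth := by
  by_contra hlt
  push Not at hlt
  have hz := signed_sum_zero t A O hd hlt
  rw [Finset.sum_powerset] at hz
  have hpos : 0 < O.card := by rw [hO]; exact Nat.pow_pos hp.pos
  have hterm : ∀ j, ∑ S ∈ O.powersetCard j, (-1 : ℤ) ^ S.card *
      (if t.eval (ind (A ∪ S)) = true then 1 else 0) =
      (-1) ^ j * (((O.powersetCard j).filter (fun S => f (ind (A ∪ S)) = true)).card : ℤ) := by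
    intro j
    rw [Finset.card_filter, Nat.cast_sum, Finset.mul_sum]
    apply Finset.sum_congr rfl
    intro S hS
    rw [Finset.mem_powersetCard] at hS
    rw [hS.2, ht]
    simp
  rw [Finset.sum_congr rfl (fun j _ => hterm j), Finset.sum_range_succ, Finset.powersetCard_self] at hz
  have hlast : ((({O} : Finset (Finset V))).filter (fun S => f (ind (A ∪ S)) = true)).card = 1 := by
    rw [Finset.filter_singleton, if_pos h1, Finset.card_singleton]
  rw [hlast] at hz
  have hdiv : (p : ℤ) ∣ ∑ j ∈ Finset.range O.card, (-1) ^ j *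
      (((O.powersetCard j).filter (fun S => f (ind (A ∪ S)) = true)).card : ℤ) := by
    apply Finset.dvd_sum
    intro j hj
    rw [Finset.mem_range] at hj
    rcases Nat.eq_zero_or_pos j with rfl | hj0
    · rw [Finset.powersetCard_zero, Finset.filter_singleton]
      simp [h0]
    · apply Dvd.dvd.mul_left
      exact_mod_cast dvd_card_of_trans hp O hO (fun S => f (ind (A ∪ S)) = true) j hj0 hj htr
  have hfin : (p : ℤ) ∣ (-1) ^ O.card * ((1 : ℕ) : ℤ) := by
    have : (-1 : ℤ) ^ O.card * ((1 : ℕ) : ℤ) = - ∑ j ∈ Finset.range O.card, (-1) ^ j *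
      (((O.powersetCard j).filter (fun S => f (ind (A ∪ S)) = true)).card : ℤ) := by
      linarith
    rw [this]
    exact (dvd_neg).2 hdiv
  have hone : (p : ℤ) ∣ 1 := by
    rcases neg_one_pow_eq_or ℤ O.card with h | h
    · rw [h] at hfin; simpa using hfin
    · rw [h] at hfin; simpa using hfin
  have := Int.eq_one_of_dvd_one (by positivity) hone
  exact hp.one_lt.ne' (by exact_mod_cast this)

end Pool.Agent.Helper82.WE
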