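import Mathlib
import Pool.Agent.Helper82.WE.Rv

/-!
Good families of permutations: every monotone invariant property flips on a large
set of prime power size on which the stabiliser of the background is transitive.
-/

set_option autoImplicit false

namespace Pool.Agent.Helper82.WE

open Pool.Agent.Lead.Ev

universe u v

/-- `G` is a set of permutations of `V`.  Every `G`-invariant monotone property `F` of subsets of
`V` that fails for `∅` and holds for `univ` flips between some `A` and `A ∪ O`, where `|O| ≥ h` is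
a power of `p` and the elements of `G` preserving `A` and `O` act transitively on `O`. -/
def Good {V : Type u} (p h : ℕ) (G : Set (Equiv.Perm V)) : Prop :=
  ∀ F : Set V → Prop, (∀ S T, S ⊆ T → F S → F T) → (∀ g ∈ G, ∀ S, F S → F (g '' S)) →
    ¬ F ∅ → F Set.univ →
    ∃ A O : Set V, Disjoint A O ∧ (∃ a, O.ncard = p ^ a) ∧ h ≤ O.ncard ∧ ¬ F A ∧ F (A ∪ O) ∧
      ∀ x ∈ O, ∀ y ∈ O, ∃ g ∈ G, g '' A = A ∧ g '' O = O ∧ g x = y

open Classical in
/-- indicator input of a set -/
noncomputable def indS {V : Type u} (S : Set V) : V → Bool := fun v => decide (v ∈ S)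

lemma indS_le {V : Type u} {S T : Set V} (h : S ⊆ T) : indS S ≤ indS T := by
  intro v
  by_cases hv : v ∈ S
  · simp [indS, hv, h hv]
  · simp [indS, hv]

lemma indS_comp {V : Type u} (g : Equiv.Perm V) (S : Set V) : indS (g '' S) ∘ g = indS S := by
  funext v
  simp [indS]

/-- A decision tree for an invariant function has depth at least `h`. -/
theorem Good.depth {V : Type u} [Finite V] {p h : ℕ} (hp : p.Prime) {G : Set (Equiv.Perm V)}
    (hG : Good p h G) (f : (V → Bool) → Bool) (hmono : Monotone f) (hnc : ∃ x y, f x ≠ f y)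
    (hinv : ∀ g ∈ G, ∀ x : V → Bool, f (x ∘ g) = f x) (t : DTree V) (ht : ∀ x, t.eval x = f x) :
    h ≤ t.depth := by
  classical
  have := Fintype.ofFinite V
  set F : Set V → Prop := fun S => f (indS S) = true with hF
  have hbt : f (indS ∅) = false ∧ f (indS Set.univ) = true := by
    obtain ⟨x, y, hxy⟩ := hnc
    have h1 : ∀ z : V → Bool, f (indS ∅) ≤ f z := fun z =>
      hmono (fun v => by simp [indS])
    have h2 : ∀ z : V → Bool, f z ≤ f (indS Set.univ) := fun z =>
      hmono (fun v => by simp [indS, Bool.le_true])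
    constructor
    · by_contra hc
      have hc' : f (indS ∅) = true := by simpa using hc
      apply hxy
      have e1 := h1 x
      have e2 := h1 y
      rw [hc'] at e1 e2
      rw [Bool.eq_true_of_true_le e1, Bool.eq_true_of_true_le e2]
    · by_contra hc
      have hc' : f (indS Set.univ) = false := by simpa using hc
      apply hxy
      have e1 := h2 x
      have e2 := h2 y
      rw [hc'] at e1 e2
      rw [Bool.eq_false_of_le_false e1, Bool.eq_false_of_le_false e2]
  have hFmono : ∀ S T, S ⊆ T → F S → F T := by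
    intro S T hST hS
    have : f (indS S) ≤ f (indS T) := hmono (indS_le hST)
    simp only [hF] at hS ⊢
    rw [hS] at this
    exact Bool.eq_true_of_true_le this
  have hFinv : ∀ g ∈ G, ∀ S, F S → F (g '' S) := by
    intro g hg S hS
    simp only [hF] at hS ⊢
    rw [← hinv g hg, indS_comp, hS]
  obtain ⟨A, O, hd, ⟨a, ha⟩, hh, hA, hAO, htr⟩ := hG F hFmono hFinv
    (by simp only [hF]; simp [hbt.1]) (by simp only [hF]; simp [hbt.2])
  obtain ⟨A', rfl⟩ : ∃ A' : Finset V, (A' : Set V) = A := ⟨A.toFinite.toFinset, Set.Finite.coe_toFinset _⟩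
  obtain ⟨O', rfl⟩ : ∃ O' : Finset V, (O' : Set V) = O := ⟨O.toFinite.toFinset, Set.Finite.coe_toFinset _⟩
  rw [Set.ncard_coe_finset] at ha hh
  have hind : ∀ S : Finset V, ind S = indS (S : Set V) := by
    intro S; funext v; simp [ind, indS]
  have key := rv hp A' O' (Finset.disjoint_coe.1 hd) (a := a) ha f
    (by
      rw [hind]
      simp only [hF] at hA
      simpa using hA)
    (by
      rw [hind, Finset.coe_union]
      exact hAO)
    (by
      intro x hx y hy
      obtain ⟨g, hg, hgA, hgO, hxy⟩ := htr x (Finset.mem_coe.2 hx) y (Finset.mem_coe.2 hy)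
      refine ⟨g, hxy, fun S hS => ⟨?_, ?_⟩⟩
      · intro z hz
        rw [Finset.mem_map] at hz
        obtain ⟨w, hw, rfl⟩ := hz
        have : g w ∈ (O' : Set V) := by
          rw [← hgO]; exact ⟨w, Finset.mem_coe.2 (hS hw), rfl⟩
        exact Finset.mem_coe.1 this
      · intro hfS
        rw [hind, Finset.coe_union] at hfS ⊢
        have e : ((A' : Set V) ∪ ((S.map g.toEmbedding : Finset V) : Set V)) =
            g '' ((A' : Set V) ∪ (S : Set V)) := by
          rw [Set.image_union, hgA, Finset.coe_map]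
          rfl
        rw [e]
        exact hFinv g hg _ hfS) t ht
  exact hh.trans key

/-- transport along an equivalence -/
theorem Good.congr {V : Type u} {W : Type v} {p h : ℕ} {G : Set (Equiv.Perm V)}
    {G' : Set (Equiv.Perm W)} (e : V ≃ W) (hG : Good p h G)
    (hGG : ∀ g ∈ G, ∃ g' ∈ G', ∀ v, g' (e v) = e (g v)) : Good p h G' := by
  intro F hm hi h0 h1
  obtain ⟨A, O, hd, ⟨a, ha⟩, hh, hA, hAO, htr⟩ := hG (fun S => F (e '' S))
    (fun S T hST hS => hm _ _ (Set.image_mono hST) hS)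
    (by
      intro g hg S hS
      obtain ⟨g', hg', hgg⟩ := hGG g hg
      have : e '' (g '' S) = g' '' (e '' S) := by
        rw [← Set.image_comp, ← Set.image_comp]
        apply Set.image_congr
        intro v _
        simp [hgg]
      rw [this]
      exact hi g' hg' _ hS)
    (by simpa using h0) (by simpa using h1)
  refine ⟨e '' A, e '' O, ?_, ⟨a, ?_⟩, ?_, hA, ?_, ?_⟩
  · exact (Set.disjoint_image_iff e.injective).2 hd
  · rw [Set.ncard_image_of_injective _ e.injective, ha]
  · rw [Set.ncard_image_of_injective _ e.injective]; exact hh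
  · rw [← Set.image_union]; exact hAO
  · rintro _ ⟨x, hx, rfl⟩ _ ⟨y, hy, rfl⟩
    obtain ⟨g, hg, hgA, hgO, hxy⟩ := htr x hx y hy
    obtain ⟨g', hg', hgg⟩ := hGG g hg
    have him : ∀ S : Set V, g' '' (e '' S) = e '' (g '' S) := by
      intro S
      rw [← Set.image_comp, ← Set.image_comp]
      apply Set.image_congr
      intro v _
      simp [hgg]
    refine ⟨g', hg', ?_, ?_, ?_⟩
    · rw [him, hgA]
    · rw [him, hgO]
    · rw [hgg, hxy]

lemma prodCongr_image {V : Type u} {W : Type v} (g : Equiv.Perm V) (g' : Equiv.Perm W)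
    (S : Set V) (T : Set W) : (Equiv.prodCongr g g') '' (S ×ˢ T) = (g '' S) ×ˢ (g' '' T) := by
  ext ⟨x, y⟩
  simp only [Set.mem_image, Set.mem_prod, Prod.exists, Equiv.prodCongr_apply, Prod.map_apply,
    Prod.mk.injEq]
  constructor
  · rintro ⟨a, b, ⟨ha, hb⟩, rfl, rfl⟩
    exact ⟨⟨a, ha, rfl⟩, ⟨b, hb, rfl⟩⟩
  · rintro ⟨⟨a, ha, rfl⟩, ⟨b, hb, rfl⟩⟩
    exact ⟨a, b, ⟨ha, hb⟩, rfl, rfl⟩

/-- products of good families are good -/
theorem Good.prod {V : Type u} {W : Type v} {p h h' : ℕ} {G : Set (Equiv.Perm V)}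
    {G' : Set (Equiv.Perm W)} (hG : Good p h G) (hG' : Good p h' G')
    (h1 : Equiv.refl V ∈ G) (h1' : Equiv.refl W ∈ G') :
    Good p (h * h') {g : Equiv.Perm (V × W) | ∃ a ∈ G, ∃ b ∈ G', g = Equiv.prodCongr a b} := by
  intro F hm hi hF0 hF1
  obtain ⟨A₁, O₁, hd₁, ⟨a₁, ha₁⟩, hh₁, hA₁, hAO₁, htr₁⟩ := hG (fun S => F (S ×ˢ Set.univ))
    (fun S T hST hS => hm _ _ (Set.prod_mono hST le_rfl) hS)
    (by
      intro g hg S hS
      have := hi (Equiv.prodCongr g (Equiv.refl W)) ⟨g, hg, Equiv.refl W, h1', rfl⟩ _ hS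
      rw [prodCongr_image] at this
      simpa using this)
    (by simpa using hF0) (by simpa using hF1)
  obtain ⟨A₂, O₂, hd₂, ⟨a₂, ha₂⟩, hh₂, hA₂, hAO₂, htr₂⟩ := hG'
    (fun S => F (A₁ ×ˢ Set.univ ∪ O₁ ×ˢ S))
    (fun S T hST hS => hm _ _ (Set.union_subset_union_right _ (Set.prod_mono le_rfl hST)) hS)
    (by
      intro g hg S hS
      have := hi (Equiv.prodCongr (Equiv.refl V) g) ⟨Equiv.refl V, h1, g, hg, rfl⟩ _ hS
      rw [Set.image_union, prodCongr_image, prodCongr_image] at this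
      simpa using this)
    (by simpa using hA₁)
    (by
      show F (A₁ ×ˢ Set.univ ∪ O₁ ×ˢ Set.univ)
      rw [← Set.union_prod]
      exact hAO₁)
  refine ⟨A₁ ×ˢ Set.univ ∪ O₁ ×ˢ A₂, O₁ ×ˢ O₂, ?_, ⟨a₁ + a₂, ?_⟩, ?_, hA₂, ?_, ?_⟩
  · rw [Set.disjoint_left]
    rintro ⟨x, y⟩ hx ⟨hxO, hyO⟩
    rcases hx with ⟨hxA, _⟩ | ⟨_, hyA⟩
    · exact Set.disjoint_left.1 hd₁ hxA hxO
    · exact Set.disjoint_left.1 hd₂ hyA hyO
  · rw [Set.ncard_prod, ha₁, ha₂, pow_add]
  · rw [Set.ncard_prod]
    exact Nat.mul_le_mul hh₁ hh₂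
  · rw [Set.union_assoc, ← Set.prod_union]
    exact hAO₂
  · rintro ⟨x, y⟩ ⟨hx, hy⟩ ⟨x', y'⟩ ⟨hx', hy'⟩
    obtain ⟨g, hg, hgA, hgO, hxx⟩ := htr₁ x hx x' hx'
    obtain ⟨g', hg', hgA', hgO', hyy⟩ := htr₂ y hy y' hy'
    refine ⟨Equiv.prodCongr g g', ⟨g, hg, g', hg', rfl⟩, ?_, ?_, ?_⟩
    · rw [Set.image_union, prodCongr_image, prodCongr_image, hgA, hgO, hgA']
      simp
    · rw [prodCongr_image, hgO, hgO']
    · simp [hxx, hyy]

/-- the product family -/
def piSet {ι : Type u} {V : ι → Type v} (G : ∀ i, Set (Equiv.Perm (V i))) :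
    Set (Equiv.Perm (∀ i, V i)) :=
  {g | ∀ i, ∃ a ∈ G i, ∀ v, g v i = a (v i)}

theorem Good.pi {p : ℕ} (ι : Type u) [Fintype ι] (V : ι → Type v) (h : ι → ℕ)
    (G : ∀ i, Set (Equiv.Perm (V i))) (hG : ∀ i, Good p (h i) (G i))
    (h1 : ∀ i, Equiv.refl _ ∈ G i) : Good p (∏ i, h i) (piSet G) := by
  revert V h G hG h1
  refine Fintype.induction_empty_option (P := fun ι _ => ∀ (V : ι → Type v) (h : ι → ℕ)
    (G : ∀ i, Set (Equiv.Perm (V i))), (∀ i, Good p (h i) (G i)) → (∀ i, Equiv.refl _ ∈ G i) →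
    Good p (∏ i, h i) (piSet G)) ?_ ?_ ?_ ι
  · intro α β _ e ih V h G hG h1
    have := ih (fun i => V (e i)) (fun i => h (e i)) (fun i => G (e i)) (fun i => hG (e i))
      (fun i => h1 (e i))
    have hprod : @Finset.prod _ _ _ (@Finset.univ α (Fintype.ofEquiv β e.symm)) (fun i => h (e i))
        = ∏ j : β, h j := by
      letI := Fintype.ofEquiv β e.symm
      exact Equiv.prod_comp e h
    rw [hprod] at this
    refine Good.congr (Equiv.piCongrLeft V e) this ?_
    intro g hg
    refine ⟨(Equiv.piCongrLeft V e).symm.trans (g.trans (Equiv.piCongrLeft V e)), ?_, ?_⟩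
    · intro j
      obtain ⟨i, rfl⟩ := e.surjective j
      obtain ⟨a, ha, hga⟩ := hg i
      refine ⟨a, ha, fun v => ?_⟩
      simp only [Equiv.trans_apply]
      rw [Equiv.piCongrLeft_apply_apply, hga]
      rfl
    · intro v
      simp
  · intro V h G _ _
    intro F _ _ h0 h1
    refine ⟨∅, Set.univ, by simp, ⟨0, ?_⟩, ?_, h0, by simpa using h1, ?_⟩
    · simp [Set.ncard_univ]
    · simp [Set.ncard_univ]
    · intro x _ y _
      refine ⟨Equiv.refl _, fun i => i.elim, by simp, by simp, Subsingleton.elim _ _⟩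
  · intro α _ ih V h G hG h1
    rw [Fintype.prod_option]
    have h2 := ih (fun i => V (some i)) (fun i => h (some i)) (fun i => G (some i))
      (fun i => hG (some i)) (fun i => h1 (some i))
    have h3 := Good.prod (hG none) h2 (h1 none)
      (fun i => ⟨Equiv.refl _, h1 (some i), fun v => rfl⟩)
    refine Good.congr (Equiv.piOptionEquivProd (β := V)).symm h3 ?_
    rintro g ⟨a, ha, b, hb, rfl⟩
    refine ⟨(Equiv.piOptionEquivProd (β := V)).trans
      ((Equiv.prodCongr a b).trans (Equiv.piOptionEquivProd (β := V)).symm), ?_, ?_⟩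
    · intro i
      cases i with
      | none => exact ⟨a, ha, fun v => rfl⟩
      | some i =>
        obtain ⟨c, hc, hbc⟩ := hb i
        exact ⟨c, hc, fun v => hbc _⟩
    · intro v
      simp

end Pool.Agent.Helper82.WE
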