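import Mathlib
import Pool.Agent.Helper82.WE.Good

/-!
`k`-subsets of a set: splitting along a colouring of the ground set.
-/

set_option autoImplicit false
set_option linter.unusedSectionVars false

namespace Pool.Agent.Helper82.WE

open Finset

universe u v

lemma Good.mono {V : Type u} {p h h' : ℕ} {G : Set (Equiv.Perm V)} (hG : Good p h G)
    (hh : h' ≤ h) : Good p h' G := by
  intro F hm hi h0 h1
  obtain ⟨A, O, hd, ha, hh', hA, hAO, htr⟩ := hG F hm hi h0 h1
  exact ⟨A, O, hd, ha, hh.trans hh', hA, hAO, htr⟩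

lemma Good.mono_right {V : Type u} {p h : ℕ} {G G' : Set (Equiv.Perm V)} (hG : Good p h G)
    (hh : G ⊆ G') : Good p h G' := by
  intro F hm hi h0 h1
  obtain ⟨A, O, hd, ha, hh', hA, hAO, htr⟩ := hG F hm (fun g hg => hi g (hh hg)) h0 h1
  refine ⟨A, O, hd, ha, hh', hA, hAO, fun x hx y hy => ?_⟩
  obtain ⟨g, hg, h2⟩ := htr x hx y hy
  exact ⟨g, hh hg, h2⟩

/-- the trivial bound -/
lemma Good.one {V : Type u} [Finite V] (p : ℕ) (G : Set (Equiv.Perm V)) (h1 : Equiv.refl V ∈ G) :
    Good p 1 G := by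
  classical
  intro F hm hi h0 hu
  have := Fintype.ofFinite V
  -- maximal set on which F fails
  obtain ⟨B, hB, hmax⟩ := Finset.exists_max_image
    (Finset.filter (fun B : Finset V => ¬ F (B : Set V)) (Finset.univ : Finset (Finset V)))
    Finset.card
    ⟨∅, by
      rw [Finset.mem_filter]
      exact ⟨Finset.mem_univ _, by simpa using h0⟩⟩
  rw [Finset.mem_filter] at hB
  have hne : ∃ x, x ∉ B := by
    by_contra hcon
    push Not at hcon
    apply hB.2
    have : (B : Set V) = Set.univ := by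
      ext x; simp [hcon x]
    rw [this]; exact hu
  obtain ⟨x, hx⟩ := hne
  refine ⟨B, {x}, ?_, ⟨0, by simp⟩, by simp, hB.2, ?_, ?_⟩
  · rw [Set.disjoint_singleton_right]; simpa using hx
  · by_contra hF
    have := hmax (insert x B) (by
      rw [Finset.mem_filter]
      refine ⟨Finset.mem_univ _, ?_⟩
      rw [Finset.coe_insert, Set.insert_eq, Set.union_comm]
      exact hF)
    rw [Finset.card_insert_of_notMem hx] at this
    omega
  · rintro y rfl z rfl
    exact ⟨_, h1, by simp, by simp, rfl⟩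

/-- `k`-subsets -/
abbrev KS (Y : Type) (k : ℕ) := {e : Finset Y // e.card = k}

/-- transport of `k`-subsets -/
def act {Y Z : Type} (g : Y ≃ Z) (k : ℕ) : KS Y k ≃ KS Z k where
  toFun e := ⟨e.1.map g.toEmbedding, by rw [card_map, e.2]⟩
  invFun e := ⟨e.1.map g.symm.toEmbedding, by rw [card_map, e.2]⟩
  left_inv e := by
    apply Subtype.ext
    simp only
    rw [map_map]
    ext x
    simp
  right_inv e := by
    apply Subtype.ext
    simp only
    rw [map_map]
    ext x
    simp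

@[simp] lemma act_val {Y Z : Type} (g : Y ≃ Z) (k : ℕ) (e : KS Y k) :
    (act g k e).1 = e.1.map g.toEmbedding := rfl

/-- permutations of the `k`-subsets induced by permutations of the ground set -/
def KSG (Y : Type) (k : ℕ) : Set (Equiv.Perm (KS Y k)) :=
  Set.range (fun g : Equiv.Perm Y => act g k)

lemma refl_mem_KSG (Y : Type) (k : ℕ) : Equiv.refl _ ∈ KSG Y k := by
  refine ⟨Equiv.refl Y, ?_⟩
  apply Equiv.ext
  intro e
  apply Subtype.ext
  simp

lemma Good.KS_congr {p h k : ℕ} {Y Z : Type} (e : Y ≃ Z) (hG : Good p h (KSG Y k)) :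
    Good p h (KSG Z k) := by
  refine Good.congr (act e k) hG ?_
  rintro _ ⟨g, rfl⟩
  refine ⟨_, ⟨(e.symm.trans g).trans e, rfl⟩, ?_⟩
  intro x
  apply Subtype.ext
  simp only [act_val, map_map]
  ext y
  simp

/-- the type of a subset with respect to a colouring -/
def typ {Y ι : Type} [DecidableEq ι] (χ : Y → ι) (e : Finset Y) (i : ι) : ℕ :=
  (e.filter (fun y => χ y = i)).card

lemma sum_typ {Y ι : Type} [DecidableEq ι] [Fintype ι] (χ : Y → ι) (e : Finset Y) :
    ∑ i, typ χ e i = e.card := by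
  rw [card_eq_sum_card_fiberwise (f := χ) (t := Finset.univ) (by simp)]
  rfl

section split

variable {Y ι : Type} [DecidableEq ι] [Fintype ι] [DecidableEq Y] (χ : Y → ι) (a : ι → ℕ)

/-- gluing subsets of the colour classes -/
def glue (v : ∀ i, KS {y // χ y = i} (a i)) : Finset Y :=
  Finset.univ.biUnion (fun i => (v i).1.map (Function.Embedding.subtype _))

lemma mem_glue (v : ∀ i, KS {y // χ y = i} (a i)) (y : Y) :
    y ∈ glue χ a v ↔ (⟨y, rfl⟩ : {z // χ z = χ y}) ∈ (v (χ y)).1 := by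
  simp only [glue, mem_biUnion, mem_univ, true_and, mem_map, Function.Embedding.subtype_apply,
    Subtype.exists, exists_and_right, exists_eq_right]
  constructor
  · rintro ⟨i, h, hi⟩
    subst h
    exact hi
  · intro h
    exact ⟨χ y, rfl, h⟩

lemma glue_filter (v : ∀ i, KS {y // χ y = i} (a i)) (i : ι) :
    (glue χ a v).filter (fun y => χ y = i) = (v i).1.map (Function.Embedding.subtype _) := by
  ext y
  rw [mem_filter, mem_glue, mem_map]
  constructor
  · rintro ⟨h, rfl⟩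
    exact ⟨_, h, rfl⟩
  · rintro ⟨⟨z, hz⟩, h, rfl⟩
    subst hz
    exact ⟨h, rfl⟩

lemma typ_glue (v : ∀ i, KS {y // χ y = i} (a i)) : typ χ (glue χ a v) = a := by
  funext i
  rw [typ, glue_filter, card_map, (v i).2]

lemma card_glue {k : ℕ} (ha : ∑ i, a i = k) (v : ∀ i, KS {y // χ y = i} (a i)) :
    (glue χ a v).card = k := by
  rw [← sum_typ χ, typ_glue, ha]

/-- gluing as a map to `k`-subsets -/
def gl {k : ℕ} (ha : ∑ i, a i = k) (v : ∀ i, KS {y // χ y = i} (a i)) : KS Y k :=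
  ⟨glue χ a v, card_glue χ a ha v⟩

lemma gl_injective {k : ℕ} (ha : ∑ i, a i = k) : Function.Injective (gl χ a ha) := by
  intro v w h
  have h' : glue χ a v = glue χ a w := congrArg Subtype.val h
  funext i
  apply Subtype.ext
  apply Finset.map_injective (Function.Embedding.subtype _)
  rw [← glue_filter, ← glue_filter, h']

lemma exists_gl {k : ℕ} (ha : ∑ i, a i = k) (e : KS Y k) (he : typ χ e.1 = a) :
    ∃ v, gl χ a ha v = e := by
  refine ⟨fun i => ⟨e.1.subtype (fun y => χ y = i), ?_⟩, ?_⟩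
  · rw [Finset.card_subtype]
    exact congrFun he i
  · apply Subtype.ext
    ext y
    show y ∈ glue χ a _ ↔ _
    rw [mem_glue]
    simp

/-- the permutation of `Y` glued from permutations of the classes -/
def gperm (g : ∀ i, Equiv.Perm {y // χ y = i}) : Equiv.Perm Y :=
  (Equiv.sigmaFiberEquiv χ).symm.trans ((Equiv.sigmaCongrRight g).trans (Equiv.sigmaFiberEquiv χ))

lemma gperm_apply (g : ∀ i, Equiv.Perm {y // χ y = i}) (y : Y) :
    gperm χ g y = (g (χ y) ⟨y, rfl⟩).1 := rfl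

lemma chi_gperm (g : ∀ i, Equiv.Perm {y // χ y = i}) (y : Y) : χ (gperm χ g y) = χ y := by
  rw [gperm_apply]
  exact (g (χ y) ⟨y, rfl⟩).2

lemma typ_act (g : Equiv.Perm Y) (hg : ∀ y, χ (g y) = χ y) (k : ℕ) (e : KS Y k) :
    typ χ (act g k e).1 = typ χ e.1 := by
  funext i
  rw [typ, typ, act_val, filter_map, card_map]
  congr 1
  ext y
  simp [hg]

lemma act_gperm_gl {k : ℕ} (ha : ∑ i, a i = k) (g : ∀ i, Equiv.Perm {y // χ y = i})
    (v : ∀ i, KS {y // χ y = i} (a i)) :
    act (gperm χ g) k (gl χ a ha v) = gl χ a ha (fun i => act (g i) (a i) (v i)) := by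
  apply Subtype.ext
  ext y
  show y ∈ (glue χ a v).map _ ↔ y ∈ glue χ a _
  rw [mem_map, mem_glue]
  constructor
  · rintro ⟨z, hz, rfl⟩
    rw [mem_glue] at hz
    show (⟨gperm χ g z, rfl⟩ : {w // χ w = χ (gperm χ g z)}) ∈
      ((v (χ (gperm χ g z))).1.map (g (χ (gperm χ g z))).toEmbedding)
    rw [mem_map]
    have key : ∀ (i : ι) (hi : χ z = i) (hi2 : χ (gperm χ g z) = i),
        ∃ w ∈ (v i).1, (g i).toEmbedding w = (⟨gperm χ g z, hi2⟩ : {w // χ w = i}) := by
      intro i hi hi2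
      subst hi
      exact ⟨⟨z, rfl⟩, hz, Subtype.ext rfl⟩
    exact key _ (chi_gperm χ g z).symm rfl
  · intro hy
    have hy' : (⟨y, rfl⟩ : {w // χ w = χ y}) ∈ ((v (χ y)).1.map (g (χ y)).toEmbedding) := hy
    rw [mem_map] at hy'
    obtain ⟨⟨w, hw⟩, hwv, hwy⟩ := hy'
    refine ⟨w, ?_, ?_⟩
    · rw [mem_glue]
      have key : ∀ (i : ι) (hi : χ w = i), (⟨w, hi⟩ : {w // χ w = i}) ∈ (v i).1 →
        (⟨w, rfl⟩ : {z // χ z = χ w}) ∈ (v (χ w)).1 := by
        intro i hi h
        subst hi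
        exact h
      exact key _ hw hwv
    · have key : ∀ (i : ι) (hi : χ w = i) (z : {w // χ w = i}),
        (g i) ⟨w, hi⟩ = z → gperm χ g w = z.1 := by
        intro i hi z h
        subst hi
        rw [gperm_apply, h]
      exact key _ hw ⟨y, rfl⟩ hwy

/-- splitting lemma: a flip on one type class reduces to the colour classes -/
theorem split {k : ℕ} (p : ℕ) (ha : ∑ i, a i = k) (h : ι → ℕ)
    (hG : ∀ i, Good p (h i) (KSG {y // χ y = i} (a i)))
    (F : Set (KS Y k) → Prop) (hm : ∀ S T, S ⊆ T → F S → F T)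
    (hi : ∀ g ∈ KSG Y k, ∀ S, F S → F (g '' S))
    (B : Set (KS Y k)) (hB : ∀ e e' : KS Y k, typ χ e.1 = typ χ e'.1 → e ∈ B → e' ∈ B)
    (haB : ∀ e ∈ B, typ χ e.1 ≠ a) (h0 : ¬ F B)
    (h1 : F (B ∪ {e | typ χ e.1 = a})) :
    ∃ A O : Set (KS Y k), Disjoint A O ∧ (∃ c, O.ncard = p ^ c) ∧ ∏ i, h i ≤ O.ncard ∧ ¬ F A ∧
      F (A ∪ O) ∧ ∀ x ∈ O, ∀ y ∈ O, ∃ g ∈ KSG Y k, g '' A = A ∧ g '' O = O ∧ g x = y := by
  have hpi := Good.pi ι (fun i => KS {y // χ y = i} (a i)) h
    (fun i => KSG {y // χ y = i} (a i)) hG (fun i => refl_mem_KSG _ _)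
  set Φ := gl χ a ha with hΦ
  have hBinv : ∀ g : Equiv.Perm Y, (∀ y, χ (g y) = χ y) → act g k '' B = B := by
    intro g hg
    ext e
    constructor
    · rintro ⟨e', he', rfl⟩
      exact hB e' _ (typ_act χ g hg k e').symm he'
    · intro he
      refine ⟨(act g k).symm e, ?_, by simp⟩
      apply hB e _ _ he
      have := typ_act χ g hg k ((act g k).symm e)
      rw [← this, Equiv.apply_symm_apply]
  have hlift : ∀ g ∈ piSet (fun i => KSG {y // χ y = i} (a i)), ∃ g' : Equiv.Perm Y,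
      (∀ y, χ (g' y) = χ y) ∧ ∀ v, act g' k (Φ v) = Φ (g v) := by
    intro g hg
    choose b hb hgb using hg
    choose c hc using hb
    refine ⟨gperm χ c, chi_gperm χ c, fun v => ?_⟩
    rw [hΦ, act_gperm_gl]
    congr 1
    funext i
    rw [hgb i v, ← hc i]
  have himg : ∀ g ∈ piSet (fun i => KSG {y // χ y = i} (a i)), ∀ g' : Equiv.Perm Y,
      (∀ v, act g' k (Φ v) = Φ (g v)) → ∀ S, act g' k '' (Φ '' S) = Φ '' (g '' S) := by
    intro g _ g' hg' S
    rw [← Set.image_comp, ← Set.image_comp]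
    apply Set.image_congr
    intro v _
    exact hg' v
  obtain ⟨A', O', hd, ⟨c, hc⟩, hh, hA, hAO, htr⟩ := hpi (fun S => F (B ∪ Φ '' S))
    (fun S T hST hS => hm _ _ (Set.union_subset_union_right _ (Set.image_mono hST)) hS)
    (by
      intro g hg S hS
      obtain ⟨g', hg'χ, hg'⟩ := hlift g hg
      have := hi (act g' k) ⟨g', rfl⟩ _ hS
      rw [Set.image_union, hBinv g' hg'χ, himg g hg g' hg'] at this
      exact this)
    (by simpa using h0)
    (by
      have : Φ '' Set.univ = {e | typ χ e.1 = a} := by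
        ext e
        constructor
        · rintro ⟨v, _, rfl⟩
          exact typ_glue χ a v
        · intro he
          obtain ⟨v, hv⟩ := exists_gl χ a ha e he
          exact ⟨v, trivial, hv⟩
      show F (B ∪ Φ '' Set.univ)
      rw [this]
      exact h1)
  have hΦinj : Function.Injective Φ := gl_injective χ a ha
  refine ⟨B ∪ Φ '' A', Φ '' O', ?_, ⟨c, ?_⟩, ?_, hA, ?_, ?_⟩
  · rw [Set.disjoint_union_left]
    constructor
    · rw [Set.disjoint_left]
      rintro e he ⟨v, _, rfl⟩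
      exact haB _ he (typ_glue χ a v)
    · exact (Set.disjoint_image_iff hΦinj).2 hd
  · rw [Set.ncard_image_of_injective _ hΦinj, hc]
  · rw [Set.ncard_image_of_injective _ hΦinj]; exact hh
  · rw [Set.union_assoc, ← Set.image_union]; exact hAO
  · rintro _ ⟨x, hx, rfl⟩ _ ⟨y, hy, rfl⟩
    obtain ⟨g, hg, hgA, hgO, hxy⟩ := htr x hx y hy
    obtain ⟨g', hg'χ, hg'⟩ := hlift g hg
    refine ⟨act g' k, ⟨g', rfl⟩, ?_, ?_, ?_⟩
    · rw [Set.image_union, hBinv g' hg'χ, himg g hg g' hg', hgA]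
    · rw [himg g hg g' hg', hgO]
    · rw [hg', hxy]

end split

/-- flipping along a finite family of classes -/
lemma exists_flip {V T : Type} [DecidableEq T] (F : Set V → Prop) (B : Set V) (L : T → Set V)
    (s : Finset T) (h0 : ¬ F B) (h1 : F (B ∪ ⋃ a ∈ s, L a)) :
    ∃ a ∈ s, ∃ s' ⊆ s, a ∉ s' ∧ ¬ F (B ∪ ⋃ b ∈ s', L b) ∧ F ((B ∪ ⋃ b ∈ s', L b) ∪ L a) := by
  induction s using Finset.induction_on with
  | empty => exact absurd (by simpa using h1) h0
  | insert a s ha ih =>
    by_cases hs : F (B ∪ ⋃ a ∈ s, L a)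
    · obtain ⟨b, hb, s', hs', h2⟩ := ih hs
      exact ⟨b, Finset.mem_insert_of_mem hb, s', hs'.trans (Finset.subset_insert _ _), h2⟩
    · refine ⟨a, Finset.mem_insert_self _ _, s, Finset.subset_insert _ _, ha, hs, ?_⟩
      rw [Finset.set_biUnion_insert] at h1
      rw [Set.union_assoc, Set.union_comm (⋃ b ∈ s, L b) (L a)]
      exact h1

end Pool.Agent.Helper82.WE
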