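import Mathlib
import Pool.Agent.Helper82.WE.Split

/-!
Blow-up of the ground set.
-/

set_option autoImplicit false
set_option linter.unusedSectionVars false

namespace Pool.Agent.Helper82.WE

open Finset

variable {Z B : Type} [DecidableEq Z] [DecidableEq B]

/-- `k`-subsets of `Z × B` lying over a family of `k`-subsets of `Z` -/
def up (B : Type) [DecidableEq B] {k : ℕ} (S : Set (KS Z k)) : Set (KS (Z × B) k) :=
  {e | ∃ e' ∈ S, e.1.image Prod.fst = e'.1}

/-- the graph of a function over a subset -/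
def gr {k : ℕ} (f : Z → B) (e : KS Z k) : KS (Z × B) k :=
  ⟨e.1.map ⟨fun z => (z, f z), fun a b h => (Prod.mk.inj h).1⟩, by rw [card_map, e.2]⟩

lemma gr_image {k : ℕ} (f : Z → B) (e : KS Z k) : (gr f e).1.image Prod.fst = e.1 := by
  ext z
  simp [gr]

lemma exists_gr [Nonempty B] {k : ℕ} (e : KS (Z × B) k) (e' : KS Z k)
    (h : e.1.image Prod.fst = e'.1) : ∃ f : Z → B, gr f e' = e := by
  classical
  have hex : ∀ z : Z, ∃ b : B, z ∈ e'.1 → (z, b) ∈ e.1 := by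
    intro z
    by_cases hz : z ∈ e'.1
    · rw [← h, mem_image] at hz
      obtain ⟨⟨z', b⟩, hzb, rfl⟩ := hz
      exact ⟨b, fun _ => hzb⟩
    · exact ⟨Classical.arbitrary B, fun hh => absurd hh hz⟩
  choose f hf using hex
  refine ⟨f, Subtype.ext ?_⟩
  apply Finset.eq_of_subset_of_card_le
  · intro y hy
    simp only [gr, mem_map, Function.Embedding.coeFn_mk] at hy
    obtain ⟨z, hz, rfl⟩ := hy
    exact hf z hz
  · rw [e.2, (gr f e').2]

lemma mem_up_iff [Nonempty B] {k : ℕ} (S : Set (KS Z k)) (e : KS (Z × B) k) :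
    e ∈ up B S ↔ ∃ f : Z → B, ∃ e' ∈ S, gr f e' = e := by
  constructor
  · rintro ⟨e', he', h⟩
    obtain ⟨f, hf⟩ := exists_gr e e' h
    exact ⟨f, e', he', hf⟩
  · rintro ⟨f, e', he', rfl⟩
    exact ⟨e', he', gr_image f e'⟩

/-- the graph of a matching function -/
def gr' {k : ℕ} (e : KS Z k) (f : e.1 → B) : KS (Z × B) k :=
  ⟨e.1.attach.map ⟨fun z => (z.1, f z), fun a b h => Subtype.ext (Prod.mk.inj h).1⟩, by
    rw [card_map, card_attach, e.2]⟩

lemma gr'_image {k : ℕ} (e : KS Z k) (f : e.1 → B) : (gr' e f).1.image Prod.fst = e.1 := by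
  ext z
  simp only [gr', mem_image, mem_map, mem_attach, Function.Embedding.coeFn_mk, true_and]
  constructor
  · rintro ⟨y, ⟨w, rfl⟩, rfl⟩
    exact w.2
  · intro hz
    exact ⟨_, ⟨⟨z, hz⟩, rfl⟩, rfl⟩

lemma gr_eq_gr' {k : ℕ} (f : Z → B) (e : KS Z k) : gr f e = gr' e (fun z => f z.1) := by
  apply Subtype.ext
  ext ⟨z, b⟩
  simp only [gr, gr', mem_map, mem_attach, Function.Embedding.coeFn_mk, true_and]
  constructor
  · rintro ⟨w, hw, h⟩
    exact ⟨⟨w, hw⟩, h⟩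
  · rintro ⟨w, h⟩
    exact ⟨w.1, w.2, h⟩

lemma ncard_up [Finite Z] [Finite B] [Nonempty B] {k : ℕ} (S : Set (KS Z k)) :
    (up B S).ncard = S.ncard * Nat.card B ^ k := by
  classical
  have := Fintype.ofFinite Z
  have := Fintype.ofFinite B
  let Ψ : (Σ e : S, (e.1.1 → B)) → KS (Z × B) k := fun x => gr' x.1.1 x.2
  have hinj : Function.Injective Ψ := by
    rintro ⟨⟨e1, h1⟩, f1⟩ ⟨⟨e2, h2⟩, f2⟩ h
    have h' : gr' e1 f1 = gr' e2 f2 := h
    have he : e1 = e2 := by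
      apply Subtype.ext
      rw [← gr'_image e1 f1, h', gr'_image]
    subst he
    have hf : f1 = f2 := by
      funext z
      have hz : (z.1, f1 z) ∈ (gr' e1 f2).1 := by
        rw [← h']
        simp only [gr', mem_map, mem_attach, Function.Embedding.coeFn_mk, true_and]
        exact ⟨z, rfl⟩
      simp only [gr', mem_map, mem_attach, Function.Embedding.coeFn_mk, true_and,
        Prod.mk.injEq] at hz
      obtain ⟨w, hw, hw2⟩ := hz
      have : w = z := Subtype.ext hw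
      subst this
      exact hw2.symm
    subst hf
    rfl
  have hrange : Set.range Ψ = up B S := by
    ext e
    rw [mem_up_iff]
    constructor
    · rintro ⟨⟨⟨e', he'⟩, f⟩, rfl⟩
      obtain ⟨f', hf'⟩ := exists_gr (gr' e' f) e' (gr'_image e' f)
      exact ⟨f', e', he', hf'⟩
    · rintro ⟨f, e', he', rfl⟩
      exact ⟨⟨⟨e', he'⟩, fun z => f z.1⟩, (gr_eq_gr' f e').symm⟩
  rw [← hrange, ← Set.image_univ, Set.ncard_image_of_injective _ hinj, Set.ncard_univ,
    Nat.card_sigma]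
  have hc : ∀ e : S, Nat.card (e.1.1 → B) = Nat.card B ^ k := by
    intro e
    rw [Nat.card_fun, Nat.card_eq_fintype_card (α := e.1.1), Fintype.card_coe, e.1.2]
  rw [Finset.sum_congr rfl (fun e _ => hc e), Finset.sum_const, Finset.card_univ, smul_eq_mul,
    ← Nat.card_eq_fintype_card, Nat.card_coe_set_eq]

lemma up_mono {k : ℕ} {S T : Set (KS Z k)} (h : S ⊆ T) : up B S ⊆ up B T := by
  rintro e ⟨e', he', h2⟩
  exact ⟨e', h he', h2⟩

lemma up_union {k : ℕ} (S T : Set (KS Z k)) : up B (S ∪ T) = up B S ∪ up B T := by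
  ext e
  constructor
  · rintro ⟨e', he' | he', h2⟩
    · exact Or.inl ⟨e', he', h2⟩
    · exact Or.inr ⟨e', he', h2⟩
  · rintro (⟨e', he', h2⟩ | ⟨e', he', h2⟩)
    · exact ⟨e', Or.inl he', h2⟩
    · exact ⟨e', Or.inr he', h2⟩

lemma image_fst_act (g : Equiv.Perm Z) (σ : Z → Equiv.Perm B) {k : ℕ} (e : KS (Z × B) k) :
    (act (Equiv.prodShear g σ) k e).1.image Prod.fst = (e.1.image Prod.fst).map g.toEmbedding := by
  ext z
  simp only [act_val, mem_image, mem_map, Equiv.coe_toEmbedding, Equiv.prodShear_apply]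
  constructor
  · rintro ⟨y, ⟨w, hw, rfl⟩, rfl⟩
    exact ⟨w.1, ⟨w, hw, rfl⟩, rfl⟩
  · rintro ⟨y, ⟨w, hw, rfl⟩, rfl⟩
    exact ⟨_, ⟨w, hw, rfl⟩, rfl⟩

lemma act_up (g : Equiv.Perm Z) (σ : Z → Equiv.Perm B) {k : ℕ} (S : Set (KS Z k)) :
    act (Equiv.prodShear g σ) k '' up B S = up B (act g k '' S) := by
  ext e
  constructor
  · rintro ⟨e1, ⟨e', he', h⟩, rfl⟩
    refine ⟨act g k e', ⟨e', he', rfl⟩, ?_⟩
    rw [image_fst_act, h, act_val]
  · rintro ⟨_, ⟨e', he', rfl⟩, h⟩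
    refine ⟨(act (Equiv.prodShear g σ) k).symm e, ⟨e', he', ?_⟩, by simp⟩
    apply Finset.map_injective g.toEmbedding
    rw [← image_fst_act g σ, Equiv.apply_symm_apply, h, act_val]

/-- blow-up lemma -/
theorem blowup [Finite Z] [Finite B] [Nonempty B] {p h k c : ℕ} (hB : Nat.card B = p ^ c)
    (hG : Good p h (KSG Z k)) (F : Set (KS (Z × B) k) → Prop) (hm : ∀ S T, S ⊆ T → F S → F T)
    (hi : ∀ g ∈ KSG (Z × B) k, ∀ S, F S → F (g '' S)) (h0 : ¬ F ∅)
    (h1 : F (up B (Set.univ : Set (KS Z k)))) :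
    ∃ A O : Set (KS (Z × B) k), Disjoint A O ∧ (∃ c, O.ncard = p ^ c) ∧ h * p ^ (c * k) ≤ O.ncard ∧
      ¬ F A ∧ F (A ∪ O) ∧
      ∀ x ∈ O, ∀ y ∈ O, ∃ g ∈ KSG (Z × B) k, g '' A = A ∧ g '' O = O ∧ g x = y := by
  obtain ⟨A', O', hd, ⟨d, hdc⟩, hh, hA, hAO, htr⟩ := hG (fun S => F (up B S))
    (fun S T hST hS => hm _ _ (up_mono hST) hS)
    (by
      rintro _ ⟨g, rfl⟩ S hS
      have := hi _ ⟨Equiv.prodShear g (fun _ => Equiv.refl B), rfl⟩ _ hS
      simp only at this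
      rw [act_up] at this
      exact this)
    (by
      have : up B (∅ : Set (KS Z k)) = ∅ := by
        ext e; simp [up]
      rw [this]; exact h0) h1
  refine ⟨up B A', up B O', ?_, ⟨d + c * k, ?_⟩, ?_, hA, ?_, ?_⟩
  · rw [Set.disjoint_left]
    rintro e ⟨e1, he1, h1⟩ ⟨e2, he2, h2⟩
    have : e1 = e2 := Subtype.ext (h1.symm.trans h2)
    subst this
    exact Set.disjoint_left.1 hd he1 he2
  · rw [ncard_up, hdc, hB, ← pow_mul, pow_add]
  · rw [ncard_up, hB, ← pow_mul]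
    exact Nat.mul_le_mul_right _ hh
  · rw [← up_union]; exact hAO
  · intro x hx y hy
    rw [mem_up_iff] at hx hy
    obtain ⟨f1, e1, he1, rfl⟩ := hx
    obtain ⟨f2, e2, he2, rfl⟩ := hy
    obtain ⟨_, ⟨g, rfl⟩, hgA, hgO, hxy⟩ := htr e1 he1 e2 he2
    simp only at hgA hgO hxy
    refine ⟨_, ⟨Equiv.prodShear g (fun z => Equiv.swap (f1 z) (f2 (g z))), rfl⟩, ?_, ?_, ?_⟩
    · simp only; rw [act_up, hgA]
    · simp only; rw [act_up, hgO]
    · rw [← hxy]
      apply Subtype.ext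
      ext ⟨z, b⟩
      simp only [act_val, gr, mem_map, Function.Embedding.coeFn_mk, Equiv.coe_toEmbedding,
        Equiv.prodShear_apply]
      constructor
      · rintro ⟨_, ⟨w, hw, rfl⟩, h⟩
        simp only [Equiv.swap_apply_left] at h
        exact ⟨g w, ⟨w, hw, rfl⟩, h⟩
      · rintro ⟨_, ⟨w, hw, rfl⟩, h⟩
        refine ⟨_, ⟨w, hw, rfl⟩, ?_⟩
        simp only [Equiv.swap_apply_left]
        exact h

end Pool.Agent.Helper82.WE
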