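import Mathlib
import Pool.Agent.Helper82.WE.Blowup

/-!
`k`-subsets of a set of prime power size.
-/

set_option autoImplicit false
set_option linter.unusedSectionVars false

namespace Pool.Agent.Helper82.WE

open Finset

/-- the exponent lost for uniformity `k` -/
def ex (k : ℕ) : ℕ := k * (k + 1) / 2 - 1

lemma two_mul_tri (k : ℕ) : 2 * (k * (k + 1) / 2) = k * (k + 1) :=
  Nat.mul_div_cancel' (Nat.even_mul_succ_self k).two_dvd

lemma ex_zero : ex 0 = 0 := rfl
lemma ex_one : ex 1 = 0 := rfl

lemma ex_split (a b : ℕ) (ha : 1 ≤ a) (hb : 1 ≤ b) : (a + b) + (ex a + ex b) ≤ ex (a + b) := by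
  have h1 := two_mul_tri a
  have h2 := two_mul_tri b
  have h3 := two_mul_tri (a + b)
  have h4 : 2 * a + 2 * b ≤ 2 * (a * b) + 2 := by nlinarith [Nat.mul_le_mul ha hb]
  have h5 : (a + b) * (a + b + 1) = a * (a + 1) + b * (b + 1) + 2 * (a * b) := by ring
  have h6 : 2 ≤ a * (a + 1) := by nlinarith
  have h7 : 2 ≤ b * (b + 1) := by nlinarith
  unfold ex
  omega

lemma ex_add (a b : ℕ) : ex a + ex b ≤ ex (a + b) := by
  rcases Nat.eq_zero_or_pos a with rfl | ha
  · simp [ex_zero]
  · rcases Nat.eq_zero_or_pos b with rfl | hb
    · simp [ex_zero]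
    · have := ex_split a b ha hb
      omega

lemma sum_ex {ι : Type} [DecidableEq ι] (s : Finset ι) (a : ι → ℕ) :
    ∑ i ∈ s, ex (a i) ≤ ex (∑ i ∈ s, a i) := by
  induction s using Finset.induction_on with
  | empty => simp [ex_zero]
  | insert i s hi ih =>
    rw [sum_insert hi, sum_insert hi]
    exact (Nat.add_le_add_left ih _).trans (ex_add _ _)

lemma sum_ex_lt {ι : Type} [DecidableEq ι] [Fintype ι] (a : ι → ℕ) (k : ℕ) (hk : 0 < k)
    (ha : ∑ i, a i = k) (hlt : ∀ i, a i < k) : k + ∑ i, ex (a i) ≤ ex k := by
  obtain ⟨i, hi⟩ : ∃ i, 0 < a i := by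
    by_contra hcon
    push Not at hcon
    have : ∑ i, a i = 0 := Finset.sum_eq_zero (fun i _ => Nat.le_zero.1 (hcon i))
    omega
  rw [← Finset.add_sum_erase _ _ (mem_univ i)] at ha ⊢
  have h1 := sum_ex (univ.erase i) a
  have h2 := hlt i
  have h3 : ∑ x ∈ univ.erase i, a x = k - a i := by omega
  rw [h3] at h1
  have h4 := ex_split (a i) (k - a i) hi (by omega)
  have h5 : a i + (k - a i) = k := by omega
  rw [h5] at h4
  omega

/-- ground sets of prime power size -/
theorem power {p : ℕ} (hp : p.Prime) : ∀ (k a : ℕ) (Y : Type) [Finite Y], Nat.card Y = p ^ a →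
    Good p (p ^ (a * k - ex k)) (KSG Y k) := by
  classical
  intro k
  induction k using Nat.strong_induction_on with
  | _ k IH =>
  intro a
  induction a with
  | zero =>
    intro Y _ _
    rw [zero_mul, Nat.zero_sub, pow_zero]
    exact Good.one p _ (refl_mem_KSG _ _)
  | succ a iha =>
    intro Y _ hY
    have hcard : Nat.card Y = Nat.card (Fin (p ^ a) × Fin p) := by
      rw [hY, Nat.card_prod, Nat.card_fin, Nat.card_fin, pow_succ]
    have eqv : (Fin (p ^ a) × Fin p) ≃ Y := (Finite.card_eq.1 hcard).some.symm
    refine Good.KS_congr eqv ?_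
    have : NeZero p := ⟨hp.ne_zero⟩
    intro F hm hi h0 h1
    by_cases hT : F (up (Fin p) (Set.univ : Set (KS (Fin (p ^ a)) k)))
    · obtain ⟨A, O, h2, h3, h4, h5⟩ := blowup (B := Fin p) (c := 1) (by simp)
        (iha (Fin (p ^ a)) (by simp)) F hm hi h0 hT
      refine ⟨A, O, h2, h3, le_trans ?_ h4, h5⟩
      rw [← pow_add]
      apply Nat.pow_le_pow_right hp.pos
      have : (a + 1) * k = a * k + k := by ring
      omega
    · -- split along the slices
      let χ : Fin (p ^ a) × Fin p → Fin p := Prod.snd
      let H : Set (KS (Fin (p ^ a) × Fin p) k) := {e | ∃ i, typ χ e.1 i = k}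
      have hH : ¬ F H := by
        intro hF
        apply hT
        refine hm _ _ ?_ hF
        rintro e ⟨i, hei⟩
        have hfil : e.1.filter (fun y => χ y = i) = e.1 := by
          apply Finset.eq_of_subset_of_card_le (filter_subset _ _)
          rw [e.2]
          exact hei.symm.le
        have hall : ∀ y ∈ e.1, y.2 = i := by
          intro y hy
          rw [← hfil, mem_filter] at hy
          exact hy.2
        refine ⟨⟨e.1.image Prod.fst, ?_⟩, trivial, rfl⟩
        rw [Finset.card_image_of_injOn, e.2]
        intro x hx y hy hxy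
        exact Prod.ext hxy ((hall x hx).trans (hall y hy).symm)
      have hkpos : 0 < k := by
        rcases Nat.eq_zero_or_pos k with rfl | h
        · exfalso
          apply hH
          have : H = Set.univ := by
            apply Set.eq_univ_of_forall
            intro e
            refine ⟨0, ?_⟩
            have : e.1 = ∅ := Finset.card_eq_zero.1 e.2
            rw [this]; rfl
          rw [this]; exact h1
        · exact h
      let s : Finset (Fin p → ℕ) :=
        (Finset.univ.image (fun e : KS (Fin (p ^ a) × Fin p) k => typ χ e.1)).filter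
          (fun b => ∀ i, b i < k)
      have hcover : H ∪ ⋃ b ∈ s, {e : KS (Fin (p ^ a) × Fin p) k | typ χ e.1 = b} = Set.univ := by
        apply Set.eq_univ_of_forall
        intro e
        by_cases he : ∀ i, typ χ e.1 i < k
        · right
          simp only [Set.mem_iUnion]
          refine ⟨typ χ e.1, ?_, rfl⟩
          rw [mem_filter]
          exact ⟨mem_image_of_mem _ (mem_univ e), he⟩
        · left
          push Not at he
          obtain ⟨i, hi⟩ := he
          refine ⟨i, le_antisymm ?_ hi⟩
          have := sum_typ χ e.1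
          rw [e.2] at this
          exact (Finset.single_le_sum (f := typ χ e.1) (fun j _ => Nat.zero_le _)
            (mem_univ i)).trans this.le
      obtain ⟨b, hb, s', hs', hbs', hF0, hF1⟩ := exists_flip F H
        (fun b => {e : KS (Fin (p ^ a) × Fin p) k | typ χ e.1 = b}) s hH
        (by rw [hcover]; exact h1)
      rw [mem_filter] at hb
      obtain ⟨hb1, hb2⟩ := hb
      have hbsum : ∑ i, b i = k := by
        rw [mem_image] at hb1
        obtain ⟨e, _, rfl⟩ := hb1
        rw [sum_typ, e.2]
      have hclass : ∀ i, Nat.card {y : Fin (p ^ a) × Fin p // χ y = i} = p ^ a := by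
        intro i
        have : {y : Fin (p ^ a) × Fin p // χ y = i} ≃ Fin (p ^ a) :=
          { toFun := fun y => y.1.1
            invFun := fun z => ⟨(z, i), rfl⟩
            left_inv := by
              rintro ⟨⟨z, w⟩, rfl⟩
              rfl
            right_inv := fun z => rfl }
        rw [Nat.card_congr this, Nat.card_fin]
      obtain ⟨A, O, h2, h3, h4, h5⟩ := split χ b p hbsum (fun i => p ^ (a * b i - ex (b i)))
        (fun i => IH (b i) (hb2 i) a _ (hclass i)) F hm hi
        (H ∪ ⋃ b ∈ s', {e | typ χ e.1 = b})
        (by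
          rintro e e' hee' (⟨i, hi⟩ | he)
          · left; exact ⟨i, by rw [← hee']; exact hi⟩
          · right
            simp only [Set.mem_iUnion] at he ⊢
            obtain ⟨b', hb', he'⟩ := he
            exact ⟨b', hb', hee'.symm.trans he'⟩)
        (by
          rintro e (⟨i, hi⟩ | he)
          · intro h
            have := hb2 i
            rw [← h] at this
            omega
          · simp only [Set.mem_iUnion] at he
            obtain ⟨b', hb', he'⟩ := he
            intro h
            apply hbs'
            have : b' = b := he'.symm.trans h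
            rw [← this]; exact hb') hF0 hF1
      refine ⟨A, O, h2, h3, le_trans ?_ h4, h5⟩
      rw [Finset.prod_pow_eq_pow_sum]
      apply Nat.pow_le_pow_right hp.pos
      have e1 : ∑ i, a * b i ≤ ∑ i, (a * b i - ex (b i)) + ∑ i, ex (b i) := by
        rw [← Finset.sum_add_distrib]
        apply Finset.sum_le_sum
        intro i _
        omega
      rw [← Finset.mul_sum, hbsum] at e1
      have e2 := sum_ex_lt b k hkpos hbsum hb2
      have e3 : (a + 1) * k = a * k + k := by ring
      omega

end Pool.Agent.Helper82.WE
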