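import Mathlib
import Pool.Agent.Helper82.WE.Power

/-!
`k`-subsets of an arbitrary finite set.
-/

set_option autoImplicit false
set_option linter.unusedSectionVars false

namespace Pool.Agent.Helper82.WE

open Finset

section

variable {Y : Type} [DecidableEq Y] {k : ℕ}

/-- `k`-subsets meeting `A` in at least `j` points -/
def UU (k j : ℕ) (A : Finset Y) : Set (KS Y k) := {e | j ≤ (e.1 ∩ A).card}

lemma UU_zero (A : Finset Y) : UU k 0 A = Set.univ := by
  ext e; simp [UU]

lemma UU_succ_self (A : Finset Y) : UU k (k + 1) A = ∅ := by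
  ext e
  simp only [UU, Set.mem_ofPred_eq, Set.mem_empty_iff_false, iff_false, not_le]
  have : (e.1 ∩ A).card ≤ e.1.card := card_le_card inter_subset_left
  have h2 := e.2
  omega

lemma UU_mono {j j' : ℕ} {A A' : Finset Y} (hj : j' ≤ j) (hA : A ⊆ A') :
    UU k j A ⊆ UU k j' A' := by
  intro e he
  have he' : j ≤ (e.1 ∩ A).card := he
  show j' ≤ (e.1 ∩ A').card
  exact hj.trans (he'.trans (card_le_card (inter_subset_inter_left hA)))

lemma act_UU (g : Equiv.Perm Y) (j : ℕ) (A : Finset Y) :
    act g k '' UU k j A = UU k j (A.map g.toEmbedding) := by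
  have key : ∀ e : KS Y k, ((act g k e).1 ∩ A.map g.toEmbedding).card = (e.1 ∩ A).card := by
    intro e
    rw [act_val, ← map_inter, card_map]
  ext e
  constructor
  · rintro ⟨e', he', rfl⟩
    show j ≤ _
    rw [key]; exact he'
  · intro he
    refine ⟨(act g k).symm e, ?_, by simp⟩
    show j ≤ _
    rw [← key, Equiv.apply_symm_apply]
    exact he

lemma exists_perm_map [Finite Y] (A A' : Finset Y) (h : A.card = A'.card) :
    ∃ g : Equiv.Perm Y, A.map g.toEmbedding = A' := by
  classical
  have := Fintype.ofFinite Y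
  have e : {x // x ∈ A} ≃ {x // x ∈ A'} := Fintype.equivOfCardEq (by simp [h])
  refine ⟨e.extendSubtype, ?_⟩
  apply Finset.eq_of_subset_of_card_le
  · intro y hy
    rw [mem_map] at hy
    obtain ⟨x, hx, rfl⟩ := hy
    exact Equiv.extendSubtype_mem e x hx
  · rw [card_map, h]

lemma F_card [Finite Y] (F : Set (KS Y k) → Prop) (hm : ∀ S T, S ⊆ T → F S → F T)
    (hi : ∀ g ∈ KSG Y k, ∀ S, F S → F (g '' S)) {j : ℕ} (A A' : Finset Y) (h : A.card ≤ A'.card)
    (hF : F (UU k j A)) : F (UU k j A') := by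
  obtain ⟨A1, hA1, hc⟩ := Finset.exists_subset_card_eq h
  obtain ⟨g, hg⟩ := exists_perm_map A A1 hc.symm
  have := hi _ ⟨g, rfl⟩ _ hF
  simp only at this
  rw [act_UU, hg] at this
  exact hm _ _ (UU_mono le_rfl hA1) this

/-- colouring by membership -/
lemma typ_mem (A : Finset Y) (e : Finset Y) :
    typ (fun y => decide (y ∈ A)) e true = (e ∩ A).card ∧
    typ (fun y => decide (y ∈ A)) e false = e.card - (e ∩ A).card := by
  have h1 : typ (fun y => decide (y ∈ A)) e true = (e ∩ A).card := by
    unfold typ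
    congr 1
    ext y
    simp
  refine ⟨h1, ?_⟩
  have := sum_typ (fun y => decide (y ∈ A)) e
  rw [Fintype.sum_bool, h1] at this
  omega

/-- splitting along a subset of the ground set -/
theorem split2 {p : ℕ} (j : ℕ) (hj : j ≤ k) (A : Finset Y) (h1 h2 : ℕ)
    (hG1 : Good p h1 (KSG {y // y ∈ A} j)) (hG2 : Good p h2 (KSG {y // y ∉ A} (k - j)))
    (F : Set (KS Y k) → Prop) (hm : ∀ S T, S ⊆ T → F S → F T)
    (hi : ∀ g ∈ KSG Y k, ∀ S, F S → F (g '' S)) (hF0 : ¬ F (UU k (j + 1) A))
    (hF1 : F (UU k j A)) :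
    ∃ A O : Set (KS Y k), Disjoint A O ∧ (∃ c, O.ncard = p ^ c) ∧ h1 * h2 ≤ O.ncard ∧ ¬ F A ∧
      F (A ∪ O) ∧ ∀ x ∈ O, ∀ y ∈ O, ∃ g ∈ KSG Y k, g '' A = A ∧ g '' O = O ∧ g x = y := by
  have hsplit := split (fun y => decide (y ∈ A)) (fun b => if b = true then j else k - j) p
    (k := k) (by rw [Fintype.sum_bool]; simp; omega) (fun b => if b = true then h1 else h2)
    (by
      intro b
      cases b with
      | false =>
        simp only [Bool.false_eq_true, if_false]
        exact Good.KS_congr (Equiv.subtypeEquivRight (fun y => by simp)) hG2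
      | true =>
        simp only [if_true]
        exact Good.KS_congr (Equiv.subtypeEquivRight (fun y => by simp)) hG1)
    F hm hi (UU k (j + 1) A)
    (by
      intro e e' hee' he
      have := congrFun hee' true
      rw [(typ_mem A e.1).1, (typ_mem A e'.1).1] at this
      show j + 1 ≤ _
      rw [← this]; exact he)
    (by
      intro e he h
      have := congrFun h true
      rw [(typ_mem A e.1).1, if_pos rfl] at this
      have he' : j + 1 ≤ (e.1 ∩ A).card := he
      omega) hF0
    (by
      refine hm _ _ ?_ hF1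
      intro e he
      have he' : j ≤ (e.1 ∩ A).card := he
      rcases Nat.lt_or_eq_of_le he' with h | h
      · exact Or.inl h
      · right
        show typ _ e.1 = _
        funext b
        cases b with
        | false =>
          rw [(typ_mem A e.1).2, e.2, ← h]
          simp
        | true =>
          rw [(typ_mem A e.1).1, ← h]
          simp)
  obtain ⟨A', O', h3, h4, h5, h6⟩ := hsplit
  refine ⟨A', O', h3, h4, ?_, h6⟩
  rw [Fintype.prod_bool] at h5
  simpa using h5

end

lemma Good.KS_card {p h k : ℕ} {Y Z : Type} [Finite Y] [Finite Z] (e : Nat.card Y = Nat.card Z)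
    (hG : Good p h (KSG Y k)) : Good p h (KSG Z k) :=
  Good.KS_congr (Finite.card_eq.1 e).some hG

/-- the bound for `k = 1` in the middle case -/
theorem split_one {Y : Type} [DecidableEq Y] [Finite Y] {p a : ℕ} (hp : p.Prime)
    (F : Set (KS Y 1) → Prop) (hm : ∀ S T, S ⊆ T → F S → F T)
    (hi : ∀ g ∈ KSG Y 1, ∀ S, F S → F (g '' S)) (h0 : ¬ F ∅) (h1 : F Set.univ)
    (hM : ∀ A : Finset Y, A.card = p ^ a → ¬ F (UU 1 1 A)) (hc : p ^ a ≤ Nat.card Y) :
    ∃ A O : Set (KS Y 1), Disjoint A O ∧ (∃ c, O.ncard = p ^ c) ∧ p ^ a ≤ O.ncard ∧ ¬ F A ∧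
      F (A ∪ O) ∧ ∀ x ∈ O, ∀ y ∈ O, ∃ g ∈ KSG Y 1, g '' A = A ∧ g '' O = O ∧ g x = y := by
  classical
  have := Fintype.ofFinite Y
  have hex : ∃ n, ∃ A : Finset Y, A.card = n ∧ F (UU 1 1 A) := by
    refine ⟨_, Finset.univ, rfl, hm _ _ ?_ h1⟩
    intro e _
    show 1 ≤ _
    rw [inter_univ, e.2]
  obtain ⟨A, hAc, hA⟩ := Nat.find_spec hex
  have hmin : ∀ B : Finset Y, B.card < A.card → ¬ F (UU 1 1 B) := by
    intro B hB hFB
    rw [hAc] at hB
    exact Nat.find_min hex hB ⟨B, rfl, hFB⟩
  have hlarge : p ^ a ≤ A.card := by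
    by_contra hlt
    push Not at hlt
    rw [Nat.card_eq_fintype_card] at hc
    obtain ⟨A', hA', hA'c⟩ := Finset.exists_superset_card_eq hlt.le hc
    exact hM A' hA'c (F_card F hm hi A A' (by omega) hA)
  obtain ⟨O', hO', hO'c⟩ := Finset.exists_subset_card_eq hlarge
  -- three colours
  let χ : Y → Fin 3 := fun y => if y ∈ O' then 1 else if y ∈ A then 0 else 2
  have hχ1 : ∀ y, χ y = 1 ↔ y ∈ O' := by
    intro y
    simp only [χ]
    split_ifs with h1 h2
    · simp [h1]
    · simp [h1]
    · simp [h1]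
  have hχ0 : ∀ y, χ y = 0 ↔ y ∈ A \ O' := by
    intro y
    simp only [χ, mem_sdiff]
    split_ifs with h1 h2
    · simp [h1]
    · simp [h1, h2]
    · simp [h2]
  have htyp0 : ∀ e : Finset Y, typ χ e 0 = (e ∩ (A \ O')).card := by
    intro e
    unfold typ
    congr 1
    ext y
    rw [mem_filter, mem_inter, hχ0]
  have htyp1 : ∀ e : Finset Y, typ χ e 1 = (e ∩ O').card := by
    intro e
    unfold typ
    congr 1
    ext y
    rw [mem_filter, mem_inter, hχ1]
  have hsplit := split χ (fun i => if i = 1 then 1 else 0) p (k := 1) (by simp)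
    (fun i => if i = 1 then p ^ a else 1)
    (by
      intro i
      by_cases hi : i = 1
      · subst hi
        simp only [if_true]
        have hc1 : Nat.card {y // χ y = 1} = p ^ a := by
          rw [Nat.card_congr (Equiv.subtypeEquivRight hχ1), Nat.card_eq_fintype_card,
            Fintype.card_coe, hO'c]
        have := power hp 1 a _ hc1
        rwa [ex_one, Nat.mul_one, Nat.sub_zero] at this
      · simp only [hi, if_false]
        exact Good.one p _ (refl_mem_KSG _ _))
    F hm hi (UU 1 1 (A \ O'))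
    (by
      intro e e' hee' he
      show 1 ≤ _
      rw [← htyp0, ← hee', htyp0]
      exact he)
    (by
      intro e he h
      have := congrFun h 0
      rw [htyp0] at this
      have he' : 1 ≤ (e.1 ∩ (A \ O')).card := he
      rw [this] at he'
      simp at he')
    (hmin _ (by
      rw [card_sdiff_of_subset hO', hO'c]
      have : 0 < p ^ a := Nat.pow_pos hp.pos
      omega))
    (by
      refine hm _ _ ?_ hA
      intro e he
      have he' : 1 ≤ (e.1 ∩ A).card := he
      by_cases h2 : 1 ≤ (e.1 ∩ (A \ O')).card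
      · exact Or.inl h2
      · right
        show typ χ e.1 = _
        have hs := sum_typ χ e.1
        rw [e.2, Fin.sum_univ_three, htyp0, htyp1] at hs
        have h3 : (e.1 ∩ A).card = (e.1 ∩ (A \ O')).card + (e.1 ∩ O').card := by
          rw [← card_union_of_disjoint]
          · congr 1
            ext y
            simp only [mem_inter, mem_union, mem_sdiff]
            constructor
            · rintro ⟨h1, h2⟩
              by_cases h3 : y ∈ O'
              · exact Or.inr ⟨h1, h3⟩
              · exact Or.inl ⟨h1, h2, h3⟩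
            · rintro (⟨h1, h2, _⟩ | ⟨h1, h2⟩)
              · exact ⟨h1, h2⟩
              · exact ⟨h1, hO' h2⟩
          · rw [Finset.disjoint_left]
            intro y hy hy'
            rw [mem_inter, mem_sdiff] at hy
            rw [mem_inter] at hy'
            exact hy.2.2 hy'.2
        have h8 : (e.1 ∩ (A \ O')).card = 0 := by omega
        have h9 : (e.1 ∩ O').card = 1 := by omega
        funext i
        fin_cases i
        · show typ χ e.1 0 = _
          rw [htyp0, h8]
          rfl
        · show typ χ e.1 1 = _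
          rw [htyp1, h9]
          rfl
        · show typ χ e.1 2 = _
          have h7 : typ χ e.1 2 = 0 := by omega
          rw [h7]
          rfl)
  obtain ⟨A', O'', h3, h4, h5, h6⟩ := hsplit
  refine ⟨A', O'', h3, h4, ?_, h6⟩
  rw [Fin.prod_univ_three] at h5
  simpa using h5

/-- the general bound -/
theorem general {p : ℕ} (hp : p.Prime) : ∀ (k : ℕ) (Y : Type) [Finite Y],
    Good p (p ^ (Nat.log p (Nat.card Y) * k - ex k)) (KSG Y k) := by
  classical
  intro k
  induction k using Nat.strong_induction_on with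
  | _ k IH =>
  intro Y _
  have := Fintype.ofFinite Y
  set a := Nat.log p (Nat.card Y) with ha
  by_cases hpos : a * k - ex k = 0
  · rw [hpos, pow_zero]
    exact Good.one p _ (refl_mem_KSG _ _)
  have hk1 : 1 ≤ k := by
    rcases Nat.eq_zero_or_pos k with rfl | h
    · simp at hpos
    · exact h
  have ha1 : 1 ≤ a := by
    rcases Nat.eq_zero_or_pos a with h | h
    · rw [h] at hpos; simp at hpos
    · exact h
  have hm0 : Nat.card Y ≠ 0 := by
    intro h
    rw [h, Nat.log_zero_right] at ha
    omega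
  have hM : p ^ a ≤ Nat.card Y := Nat.pow_log_le_self p hm0
  intro F hm hi h0 h1
  -- case 1
  by_cases hc1 : ∃ A : Finset Y, A.card = p ^ a ∧ F (UU k k A)
  · obtain ⟨A, hAc, hA⟩ := hc1
    have hcA : Nat.card {y // y ∈ A} = p ^ a := by
      rw [Nat.card_eq_fintype_card, Fintype.card_coe, hAc]
    obtain ⟨A', O', h3, h4, h5, h6⟩ := split2 k le_rfl A _ 1 (power hp k a _ hcA)
      (Good.one p _ (refl_mem_KSG _ _)) F hm hi (by rw [UU_succ_self]; exact h0) hA
    exact ⟨A', O', h3, h4, by simpa using h5, h6⟩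
  push Not at hc1
  -- case 2
  by_cases hc2 : ∃ A : Finset Y, A.card = Nat.card Y - p ^ a ∧ ¬ F (UU k 1 A)
  · obtain ⟨A, hAc, hA⟩ := hc2
    have hcA : Nat.card {y // y ∉ A} = p ^ a := by
      rw [Nat.card_eq_fintype_card, Fintype.card_subtype_compl, Fintype.card_coe, hAc,
        ← Nat.card_eq_fintype_card]
      omega
    obtain ⟨A', O', h3, h4, h5, h6⟩ := split2 0 (Nat.zero_le _) A 1 _
      (Good.one p _ (refl_mem_KSG _ _)) (power hp k a _ hcA) F hm hi hA
      (by rw [UU_zero]; exact h1)
    exact ⟨A', O', h3, h4, by simpa using h5, h6⟩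
  push Not at hc2
  -- case k = 1
  rcases Nat.eq_or_lt_of_le hk1 with hk | hk
  · subst hk
    rw [ex_one, Nat.mul_one, Nat.sub_zero]
    exact split_one hp F hm hi h0 h1 hc1 hM
  -- the main case
  obtain ⟨b, hb⟩ : ∃ b, a = b + 1 := ⟨a - 1, by omega⟩
  have hpb : 2 * p ^ b ≤ p ^ a := by
    rw [hb, pow_succ, mul_comm]
    exact Nat.mul_le_mul_left _ hp.two_le
  have hpb0 : 0 < p ^ b := Nat.pow_pos hp.pos
  -- the finishing step
  have fin : ∀ (A : Finset Y) (j : ℕ), 1 ≤ j → j < k → p ^ b ≤ A.card →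
      p ^ b ≤ Nat.card Y - A.card → F (UU k j A) → ¬ F (UU k (j + 1) A) →
      ∃ A O : Set (KS Y k), Disjoint A O ∧ (∃ c, O.ncard = p ^ c) ∧ p ^ (a * k - ex k) ≤ O.ncard ∧
      ¬ F A ∧ F (A ∪ O) ∧ ∀ x ∈ O, ∀ y ∈ O, ∃ g ∈ KSG Y k, g '' A = A ∧ g '' O = O ∧ g x = y := by
    intro A j hj1 hjk hA1 hA2 hF1 hF0
    obtain ⟨A', O', h3, h4, h5, h6⟩ := split2 j hjk.le A _ _ (IH j hjk {y // y ∈ A})
      (IH (k - j) (by omega) {y // y ∉ A}) F hm hi hF0 hF1
    refine ⟨A', O', h3, h4, le_trans ?_ h5, h6⟩
    have hl1 : b ≤ Nat.log p (Nat.card {y // y ∈ A}) := by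
      rw [Nat.card_eq_fintype_card, Fintype.card_coe]
      exact Nat.le_log_of_pow_le hp.one_lt hA1
    have hl2 : b ≤ Nat.log p (Nat.card {y // y ∉ A}) := by
      rw [Nat.card_eq_fintype_card, Fintype.card_subtype_compl, Fintype.card_coe,
        ← Nat.card_eq_fintype_card]
      exact Nat.le_log_of_pow_le hp.one_lt hA2
    rw [← pow_add]
    apply Nat.pow_le_pow_right hp.pos
    have e1 := ex_split j (k - j) hj1 (by omega)
    have e2 : j + (k - j) = k := by omega
    rw [e2] at e1
    have e3 : b * j ≤ Nat.log p (Nat.card {y // y ∈ A}) * j := Nat.mul_le_mul_right _ hl1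
    have e4 : b * (k - j) ≤ Nat.log p (Nat.card {y // y ∉ A}) * (k - j) :=
      Nat.mul_le_mul_right _ hl2
    have e5 : a * k = b * j + b * (k - j) + k := by
      rw [hb, ← Nat.mul_add, e2]; ring
    omega
  have hex : ∃ n, ∃ A : Finset Y, A.card = n ∧ F (UU k 1 A) := by
    obtain ⟨A, _, hA⟩ := Finset.exists_subset_card_eq (s := (Finset.univ : Finset Y))
      (n := Nat.card Y - p ^ a) (by rw [card_univ, ← Nat.card_eq_fintype_card]; omega)
    exact ⟨_, A, hA, hc2 A hA⟩
  obtain ⟨A, hAc, hA⟩ := Nat.find_spec hex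
  have hle : A.card ≤ Nat.card Y - p ^ a := by
    rw [hAc]
    obtain ⟨A', _, hA'⟩ := Finset.exists_subset_card_eq (s := (Finset.univ : Finset Y))
      (n := Nat.card Y - p ^ a) (by rw [card_univ, ← Nat.card_eq_fintype_card]; omega)
    exact Nat.find_min' hex ⟨A', hA', hc2 A' hA'⟩
  have hmin : ∀ B : Finset Y, B.card < A.card → ¬ F (UU k 1 B) := by
    intro B hB hFB
    rw [hAc] at hB
    exact Nat.find_min hex hB ⟨B, rfl, hFB⟩
  by_cases hAb : p ^ b ≤ A.card
  · -- threshold is large
    apply fin A 1 le_rfl hk hAb (by omega) hA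
    intro hF2
    have hne : A.Nonempty := card_pos.1 (by omega)
    obtain ⟨v, hv⟩ := hne
    apply hmin (A.erase v) (by rw [card_erase_of_mem hv]; omega)
    refine hm _ _ ?_ hF2
    intro e he
    have he' : 2 ≤ (e.1 ∩ A).card := he
    show 1 ≤ (e.1 ∩ A.erase v).card
    have : (e.1 ∩ A).erase v ⊆ e.1 ∩ A.erase v := by
      intro y hy
      rw [mem_erase, mem_inter] at hy
      rw [mem_inter, mem_erase]
      exact ⟨hy.2.1, hy.1, hy.2.2⟩
    have h2 := card_le_card this
    have h3 := pred_card_le_card_erase (s := e.1 ∩ A) (a := v)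
    omega
  · push Not at hAb
    -- choose a set of size p^b
    obtain ⟨C, _, hC⟩ := Finset.exists_subset_card_eq (s := (Finset.univ : Finset Y))
      (n := p ^ b) (by rw [card_univ, ← Nat.card_eq_fintype_card]; omega)
    have hC1 : F (UU k 1 C) := F_card F hm hi A C (by omega) hA
    have hCk : ¬ F (UU k k C) := by
      intro hFC
      obtain ⟨D, _, hD⟩ := Finset.exists_subset_card_eq (s := (Finset.univ : Finset Y))
        (n := p ^ a) (by rw [card_univ, ← Nat.card_eq_fintype_card]; omega)
      exact hc1 D hD (F_card F hm hi C D (by omega) hFC)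
    obtain ⟨j, hj1, hjk, hFj, hFj'⟩ : ∃ j, 1 ≤ j ∧ j < k ∧ F (UU k j C) ∧
        ¬ F (UU k (j + 1) C) := by
      by_contra hcon
      push Not at hcon
      have hall : ∀ j, 1 ≤ j → j ≤ k → F (UU k j C) := by
        intro j hj
        induction j, hj using Nat.le_induction with
        | base => intro _; exact hC1
        | succ j hj ih =>
          intro hjk
          exact hcon j hj (by omega) (ih (by omega))
      exact hCk (hall k hk1 le_rfl)
    exact fin C j hj1 hjk (by omega) (by omega) hFj hFj'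

end Pool.Agent.Helper82.WE
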