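import Mathlib
import Pool.Agent.Helper82.WE.General

/-!
Equivariant maps: goodness lifts from the target to the source.
-/

set_option autoImplicit false
set_option linter.unusedSectionVars false

namespace Pool.Agent.Helper82.WE

open MulAction Pointwise

universe u v w

/-- A Sylow subgroup is transitive on a transitive set of prime power size. -/
lemma sylow_trans {Q : Type u} {X : Type v} [Group Q] [Finite Q] [MulAction Q X] {p a : ℕ}
    [hp : Fact p.Prime] (hX : Nat.card X = p ^ a) [IsPretransitive Q X] (P : Sylow p Q) (x y : X) :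
    ∃ g ∈ (P : Subgroup Q), g • x = y := by
  have hfin : Finite X := Nat.finite_of_card_ne_zero (by rw [hX]; exact (pow_pos hp.out.pos _).ne')
  have h1 : (stabilizer Q x).index = p ^ a := by
    rw [index_stabilizer, orbit_eq_univ, Set.ncard_univ, hX]
  have h2 : p ^ a ∣ (stabilizer Q x).relIndex (P : Subgroup Q) := by
    have e1 : (stabilizer Q x ⊓ (P : Subgroup Q)).relIndex (P : Subgroup Q) *
        (P : Subgroup Q).index = (stabilizer Q x ⊓ (P : Subgroup Q)).index :=
      Subgroup.relIndex_mul_index inf_le_right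
    rw [Subgroup.inf_relIndex_right] at e1
    have e2 : p ^ a ∣ (stabilizer Q x ⊓ (P : Subgroup Q)).index := by
      rw [← h1]; exact Subgroup.index_dvd_of_le inf_le_left
    rw [← e1] at e2
    have hcop : Nat.Coprime (p ^ a) (P : Subgroup Q).index :=
      Nat.Coprime.pow_left a ((Nat.Prime.coprime_iff_not_dvd hp.out).2 P.not_dvd_index)
    exact hcop.dvd_of_dvd_mul_right e2
  have h3 : (orbit (P : Subgroup Q) x).ncard = (stabilizer Q x).relIndex (P : Subgroup Q) := by
    rw [← index_stabilizer]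
    rfl
  have h4 : p ^ a ≤ (orbit (P : Subgroup Q) x).ncard := by
    rw [h3]
    refine Nat.le_of_dvd ?_ h2
    rw [← h3, Set.ncard_pos]
    exact ⟨x, mem_orbit_self x⟩
  have h5 : orbit (P : Subgroup Q) x = Set.univ := by
    apply Set.eq_of_subset_of_ncard_le (Set.subset_univ _)
    rw [Set.ncard_univ, hX]
    exact h4
  have : y ∈ orbit (P : Subgroup Q) x := by rw [h5]; trivial
  obtain ⟨g, hg⟩ := this
  exact ⟨g.1, g.2, hg⟩

/-- the permutations induced by a group action -/
def permSet (Γ : Type u) (V : Type v) [Group Γ] [MulAction Γ V] : Set (Equiv.Perm V) :=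
  Set.range (fun g : Γ => MulAction.toPerm g)

lemma image_toPerm {Γ : Type u} {V : Type v} [Group Γ] [MulAction Γ V] (g : Γ) (S : Set V) :
    (MulAction.toPerm g : Equiv.Perm V) '' S = g • S := rfl

theorem Good.fibration {Γ : Type u} {V : Type v} {V' : Type w} [Group Γ] [Finite Γ] [Finite V]
    [MulAction Γ V] [MulAction Γ V'] (π : V → V') (hπ : ∀ (g : Γ) v, π (g • v) = g • π v)
    {p h : ℕ} (hp : p.Prime) (hG : Good p h (permSet Γ V')) : Good p h (permSet Γ V) := by
  classical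
  have : Fact p.Prime := ⟨hp⟩
  intro F hm hi h0 h1
  have hpre : ∀ (g : Γ) (S : Set V'), g • (π ⁻¹' S) = π ⁻¹' (g • S) := by
    intro g S
    ext v
    rw [Set.mem_smul_set_iff_inv_smul_mem, Set.mem_preimage, Set.mem_preimage, hπ,
      Set.mem_smul_set_iff_inv_smul_mem]
  have hFi : ∀ (g : Γ) (S : Set V), F S → F (g • S) := fun g S hS => hi _ ⟨g, rfl⟩ S hS
  obtain ⟨A', O', hd, ⟨a, ha⟩, hh, hA, hAO, htr⟩ := hG (fun S => F (π ⁻¹' S))
    (fun S T hST hS => hm _ _ (Set.preimage_mono hST) hS)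
    (by
      rintro _ ⟨g, rfl⟩ S hS
      have := hFi g _ hS
      rw [hpre] at this
      exact this)
    (by simpa using h0) (by simpa using h1)
  -- the stabiliser
  set Q : Subgroup Γ := stabilizer Γ A' ⊓ stabilizer Γ O' with hQ
  have hO'ne : O'.Nonempty := by
    rw [Set.nonempty_iff_ne_empty]
    rintro rfl
    rw [Set.ncard_empty] at ha
    exact (pow_pos hp.pos a).ne ha
  have horb : ∀ y ∈ O', orbit Q y = O' := by
    intro y hy
    ext z
    constructor
    · rintro ⟨g, rfl⟩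
      have hg : (g : Γ) • O' = O' := g.2.2
      show (g : Γ) • y ∈ O'
      rw [← hg]
      exact Set.smul_mem_smul_set hy
    · intro hz
      obtain ⟨_, ⟨g, rfl⟩, hgA, hgO, hyz⟩ := htr y hy z hz
      exact ⟨⟨g, hgA, hgO⟩, hyz⟩
  obtain ⟨P⟩ : Nonempty (Sylow p Q) := inferInstance
  have hPtr : ∀ y ∈ O', ∀ z ∈ O', ∃ g ∈ (P : Subgroup Q), g • y = z := by
    intro y hy z hz
    have hz' : z ∈ orbit Q y := by rw [horb y hy]; exact hz
    have hcard : Nat.card (orbit Q y) = p ^ a := by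
      rw [Nat.card_coe_set_eq, horb y hy, ha]
    obtain ⟨g, hg, hgz⟩ := sylow_trans hcard P ⟨y, mem_orbit_self y⟩ ⟨z, hz'⟩
    exact ⟨g, hg, congrArg Subtype.val hgz⟩
  -- maximal P-invariant set on which F fails
  have hPinv : ∀ (g : Q) (S : Set V), g • S = (g : Γ) • S := fun g S => rfl
  let good : Set (Set V) := {B | π ⁻¹' A' ⊆ B ∧ B ⊆ π ⁻¹' (A' ∪ O') ∧
    (∀ g ∈ (P : Subgroup Q), g • B = B) ∧ ¬ F B}
  have hgne : good.Nonempty := by
    refine ⟨π ⁻¹' A', le_rfl, Set.preimage_mono Set.subset_union_left, ?_, hA⟩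
    intro g _
    rw [hPinv, hpre]
    have : (g : Γ) • A' = A' := g.2.1
    rw [this]
  obtain ⟨B, hB, hBmax⟩ := Set.exists_max_image good (fun B => B.ncard) (Set.toFinite _) hgne
  obtain ⟨hB1, hB2, hB3, hB4⟩ := hB
  have hex : ∃ v, v ∈ π ⁻¹' O' ∧ v ∉ B := by
    by_contra hcon
    push Not at hcon
    apply hB4
    refine hm _ _ ?_ hAO
    intro v hv
    rcases hv with hv | hv
    · exact hB1 hv
    · exact hcon v hv
  obtain ⟨v, hvO, hvB⟩ := hex
  have hBdisj : Disjoint B (orbit (P : Subgroup Q) v) := by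
    rw [Set.disjoint_left]
    rintro _ hw ⟨g, rfl⟩
    apply hvB
    have h3 := hB3 (g : Q)⁻¹ ((P : Subgroup Q).inv_mem g.2)
    rw [← h3]
    have : v = (g : Q)⁻¹ • ((g : Q) • v) := (inv_smul_smul (g : Q) v).symm
    rw [this]
    exact Set.smul_mem_smul_set hw
  have horbinv : ∀ g ∈ (P : Subgroup Q), g • orbit (P : Subgroup Q) v =
      orbit (P : Subgroup Q) v := by
    intro g hg
    have := smul_orbit (⟨g, hg⟩ : (P : Subgroup Q)) v
    exact this
  refine ⟨B, orbit (P : Subgroup Q) v, hBdisj, ?_, ?_, hB4, ?_, ?_⟩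
  · obtain ⟨n, hn⟩ := P.isPGroup'.card_orbit v
    exact ⟨n, by rw [← Nat.card_coe_set_eq, hn]⟩
  · refine hh.trans ?_
    have hsub : O' ⊆ π '' orbit (P : Subgroup Q) v := by
      intro z hz
      obtain ⟨g, hg, hgz⟩ := hPtr (π v) hvO z hz
      refine ⟨(⟨g, hg⟩ : (P : Subgroup Q)) • v, ⟨_, rfl⟩, ?_⟩
      show π ((g : Γ) • v) = z
      rw [hπ]
      exact hgz
    exact (Set.ncard_le_ncard hsub (Set.toFinite _)).trans (Set.ncard_image_le (Set.toFinite _))
  · by_contra hF
    have hmem : B ∪ orbit (P : Subgroup Q) v ∈ good := by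
      refine ⟨hB1.trans Set.subset_union_left, ?_, ?_, hF⟩
      · apply Set.union_subset hB2
        rintro _ ⟨g, rfl⟩
        right
        show π ((g.1 : Γ) • v) ∈ O'
        rw [hπ]
        have hg : (g.1 : Γ) • O' = O' := g.1.2.2
        rw [← hg]
        exact Set.smul_mem_smul_set hvO
      · intro g hg
        rw [Set.smul_set_union, hB3 g hg, horbinv g hg]
    have h7 := hBmax _ hmem
    have h8 : B.ncard < (B ∪ orbit (P : Subgroup Q) v).ncard := by
      apply Set.ncard_lt_ncard _ (Set.toFinite _)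
      rw [Set.ssubset_iff_of_subset Set.subset_union_left]
      exact ⟨v, Or.inr (mem_orbit_self v), hvB⟩
    omega
  · rintro _ ⟨g1, rfl⟩ _ ⟨g2, rfl⟩
    refine ⟨MulAction.toPerm (((g2.1 * (g1.1)⁻¹ : Q)) : Γ), ⟨_, rfl⟩, ?_, ?_, ?_⟩
    · exact hB3 _ ((P : Subgroup Q).mul_mem g2.2 ((P : Subgroup Q).inv_mem g1.2))
    · exact horbinv _ ((P : Subgroup Q).mul_mem g2.2 ((P : Subgroup Q).inv_mem g1.2))
    · show ((g2.1 * (g1.1)⁻¹ : Q)) • (g1.1 • v) = g2.1 • v
      rw [mul_smul, inv_smul_smul]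

end Pool.Agent.Helper82.WE
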