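import Mathlib
import Pool.Agent.Helper82.WE.Fib

/-!
The lower bound for functions on structures supported on `k i` points of `Y i`.
-/

set_option autoImplicit false
set_option linter.unusedSectionVars false

namespace Pool.Agent.Helper82.WE

open MulAction Finset Pool.Agent.Lead.Ev

/-- the coordinatewise action on tuples of subsets -/
@[reducible] def tupAction {ι : Type} (Y : ι → Type) (k : ι → ℕ) :
    MulAction (∀ i, Equiv.Perm (Y i)) (∀ i, KS (Y i) (k i)) where
  smul g w := fun i => act (g i) (k i) (w i)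
  one_smul w := by
    funext i
    apply Subtype.ext
    show (w i).1.map (Equiv.refl _).toEmbedding = (w i).1
    simp
  mul_smul g g' w := by
    funext i
    apply Subtype.ext
    show (w i).1.map _ = ((w i).1.map _).map _
    rw [map_map]
    rfl

theorem good_supp {ι V : Type} [Fintype ι] [Finite V] (Y : ι → Type)
    [∀ i, Fintype (Y i)] (k : ι → ℕ) [MulAction (∀ i, Equiv.Perm (Y i)) V]
    (supp : ∀ i, V → Finset (Y i)) (hk : ∀ i v, (supp i v).card = k i)
    (hsupp : ∀ (g : ∀ i, Equiv.Perm (Y i)) (i : ι) (v : V),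
      supp i (g • v) = (supp i v).map (g i).toEmbedding) {p : ℕ} (hp : p.Prime) :
    Good p (∏ i, p ^ (Nat.log p (Fintype.card (Y i)) * k i - ex (k i)))
      (permSet (∀ i, Equiv.Perm (Y i)) V) := by
  classical
  letI := tupAction Y k
  have : Finite (∀ i, Equiv.Perm (Y i)) := inferInstance
  apply Good.fibration (V' := ∀ i, KS (Y i) (k i)) (fun v i => ⟨supp i v, hk i v⟩) _ hp
  · have h1 := Good.pi (p := p) ι (fun i => KS (Y i) (k i))
      (fun i => p ^ (Nat.log p (Fintype.card (Y i)) * k i - ex (k i)))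
      (fun i => KSG (Y i) (k i))
      (fun i => by
        have := general hp (k i) (Y i)
        rwa [Nat.card_eq_fintype_card] at this)
      (fun i => refl_mem_KSG _ _)
    apply h1.mono_right
    intro g hg
    choose a ha hga using hg
    choose b hb using ha
    refine ⟨b, ?_⟩
    apply Equiv.ext
    intro w
    funext i
    rw [hga i w, ← hb i]
    rfl
  · intro g v
    funext i
    apply Subtype.ext
    exact hsupp g i v

lemma ex_le (k : ℕ) : (ex k : ℝ) ≤ (k : ℝ) * (k + 1) / 2 := by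
  have h := two_mul_tri k
  have h2 : ex k ≤ k * (k + 1) / 2 := Nat.sub_le _ _
  have h3 : 2 * ex k ≤ k * (k + 1) := by omega
  have h4 : (2 : ℝ) * (ex k : ℝ) ≤ (k : ℝ) * (k + 1) := by exact_mod_cast h3
  linarith

theorem main {ι V : Type} [Fintype ι] [Finite V] (Y : ι → Type)
    [∀ i, Fintype (Y i)] (k : ι → ℕ) [MulAction (∀ i, Equiv.Perm (Y i)) V]
    (supp : ∀ i, V → Finset (Y i)) (hk : ∀ i v, (supp i v).card = k i)
    (hsupp : ∀ (g : ∀ i, Equiv.Perm (Y i)) (i : ι) (v : V),
      supp i (g • v) = (supp i v).map (g i).toEmbedding)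
    (f : (V → Bool) → Bool) (hmono : Monotone f) (hnc : ∃ x y, f x ≠ f y)
    (hinv : ∀ (g : ∀ i, Equiv.Perm (Y i)) (x : V → Bool), f (fun v => x (g • v)) = f x)
    (t : DTree V) (ht : ∀ x, t.eval x = f x) :
    (∀ p : ℕ, p.Prime →
      ∏ i, p ^ (Nat.log p (Fintype.card (Y i)) * k i - (k i * (k i + 1) / 2 - 1)) ≤ t.depth) ∧
    (∀ ε : ℝ, 0 < ε →
      (∀ i, (k i : ℝ) + 3 ≤ 2 * ε * Real.logb 2 (Fintype.card (Y i))) →
      (Nat.card V : ℝ) ≤ ∏ i, (Fintype.card (Y i) : ℝ) ^ (k i) →
      (Nat.card V : ℝ) ^ (1 - ε) ≤ t.depth) := by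
  have main1 : ∀ p : ℕ, p.Prime →
      ∏ i, p ^ (Nat.log p (Fintype.card (Y i)) * k i - ex (k i)) ≤ t.depth := by
    intro p hp
    refine (good_supp Y k supp hk hsupp hp).depth hp f hmono hnc ?_ t ht
    rintro _ ⟨g, rfl⟩ x
    exact hinv g x
  refine ⟨main1, ?_⟩
  intro ε hε hlog hcard
  have hne : Nonempty V := by
    by_contra hemp
    rw [not_nonempty_iff] at hemp
    obtain ⟨x, y, hxy⟩ := hnc
    exact hxy (congrArg f (Subsingleton.elim x y))
  have hV1 : (1 : ℝ) ≤ Nat.card V := by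
    exact_mod_cast (Nat.card_pos (α := V))
  have h2 := main1 2 Nat.prime_two
  rw [Finset.prod_pow_eq_pow_sum] at h2
  have h2' : (2 : ℝ) ^ (∑ i, (Nat.log 2 (Fintype.card (Y i)) * k i - ex (k i))) ≤ t.depth := by
    exact_mod_cast h2
  by_cases hε1 : 1 ≤ ε
  · calc (Nat.card V : ℝ) ^ (1 - ε) ≤ 1 :=
        Real.rpow_le_one_of_one_le_of_nonpos hV1 (by linarith)
      _ ≤ (2 : ℝ) ^ (∑ i, (Nat.log 2 (Fintype.card (Y i)) * k i - ex (k i))) :=
        one_le_pow₀ (by norm_num)
      _ ≤ _ := h2'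
  push Not at hε1
  have hm : ∀ i, (Fintype.card (Y i) : ℝ) ≤ (2 : ℝ) ^ (Nat.log 2 (Fintype.card (Y i)) + 1) := by
    intro i
    exact_mod_cast (Nat.lt_pow_succ_log_self (by norm_num) (Fintype.card (Y i))).le
  have h3 : (Nat.card V : ℝ) ≤
      (2 : ℝ) ^ (∑ i, (Nat.log 2 (Fintype.card (Y i)) + 1) * k i) := by
    refine hcard.trans ?_
    rw [← Finset.prod_pow_eq_pow_sum]
    apply Finset.prod_le_prod
    · intro i _; positivity
    · intro i _
      rw [pow_mul]
      exact pow_le_pow_left₀ (by positivity) (hm i) _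
  calc (Nat.card V : ℝ) ^ (1 - ε)
      ≤ ((2 : ℝ) ^ (∑ i, (Nat.log 2 (Fintype.card (Y i)) + 1) * k i)) ^ (1 - ε) :=
        Real.rpow_le_rpow (by positivity) h3 (by linarith)
    _ = (2 : ℝ) ^ ((∑ i, ((Nat.log 2 (Fintype.card (Y i)) + 1) * k i : ℕ) : ℝ) * (1 - ε)) := by
        rw [← Real.rpow_natCast, ← Real.rpow_mul (by norm_num)]
        push_cast
        rfl
    _ ≤ (2 : ℝ) ^ ((∑ i, ((Nat.log 2 (Fintype.card (Y i)) * k i - ex (k i) : ℕ) : ℝ))) := by
        apply Real.rpow_le_rpow_of_exponent_le (by norm_num)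
        rw [Finset.sum_mul]
        apply Finset.sum_le_sum
        intro i _
        have hpos : (0 : ℝ) < Fintype.card (Y i) := by
          rcases Nat.eq_zero_or_pos (Fintype.card (Y i)) with h0 | h0
          · exfalso
            have := hlog i
            rw [h0] at this
            simp at this
            have h5 : (0 : ℝ) ≤ k i := Nat.cast_nonneg _
            linarith
          · exact_mod_cast h0
        have hlog2 : Real.logb 2 (Fintype.card (Y i)) ≤ (Nat.log 2 (Fintype.card (Y i)) : ℝ) + 1 := by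
          rw [Real.logb_le_iff_le_rpow (by norm_num) hpos]
          have := hm i
          rw [← Real.rpow_natCast] at this
          push_cast at this
          exact this
        have e1 : ((Nat.log 2 (Fintype.card (Y i)) * k i : ℕ) : ℝ) - (ex (k i) : ℝ) ≤
            ((Nat.log 2 (Fintype.card (Y i)) * k i - ex (k i) : ℕ) : ℝ) := by
          rw [sub_le_iff_le_add]
          exact_mod_cast le_tsub_add
        have e2 := ex_le (k i)
        have e3 := hlog i
        have e4 : (k i : ℝ) + 3 ≤ 2 * ε * ((Nat.log 2 (Fintype.card (Y i)) : ℝ) + 1) :=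
          e3.trans (mul_le_mul_of_nonneg_left hlog2 (by positivity))
        have hk0 : (0 : ℝ) ≤ k i := Nat.cast_nonneg _
        push_cast at e1 ⊢
        nlinarith [mul_le_mul_of_nonneg_left e4 hk0]
    _ = (2 : ℝ) ^ (∑ i, (Nat.log 2 (Fintype.card (Y i)) * k i - ex (k i))) := by
        rw [← Real.rpow_natCast]
        push_cast
        rfl
    _ ≤ _ := h2'

end Pool.Agent.Helper82.WE
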